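import Mathlib
import Pool.Agent.Lib.Helper90.GSem.HT

/-!
# Semilinear actions with integral weights: stable subspaces
-/

namespace Pool.Agent.NF

open NumberField TensorProduct Module Pool.Agent.GSem

section

variable {p : ℕ} [hp : Fact p.Prime]
variable {V : Type*} [AddCommGroup V] [Module ℚ_[p] V]

/-- The data of a semilinear action: `R σ T u` means that `σ ⊗ T` acts on `ℂ_p ⊗ V`, with
cyclotomic value `u`. -/
abbrev Rel (p : ℕ) [Fact p.Prime] (V : Type*) [AddCommGroup V] [Module ℚ_[p] V] :=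
  Gal(PadicAlgCl p/ℚ_[p]) → (V →ₗ[ℚ_[p]] V) → ℚ_[p] → Prop

/-- Tate's theorem for the relation `R`. -/
def TateRel (R : Rel p V) : Prop :=
  ∀ c : ℂ_[p], c ≠ 0 → ∀ m : ℤ, m ≠ 0 → ∃ σ T u, R σ T u ∧
    galC σ c ≠ algebraMap ℚ_[p] ℂ_[p] (u ^ m) * c

/-- Basis of eigenvectors of weights `h`. -/
def BasisRel (R : Rel p V) {n : ℕ} (h : Fin n → ℤ)
    (e : Basis (Fin n) ℂ_[p] (ℂ_[p] ⊗[ℚ_[p]] V)) : Prop :=
  ∀ σ T u, R σ T u → u ≠ 0 ∧ ∀ i, semi σ T (e i) = algebraMap ℚ_[p] ℂ_[p] (u ^ (-h i)) • e i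

/-- A stable subspace is spanned by basis vectors, when the weights are distinct. -/
theorem basis_mem_abs {R : Rel p V} (hR : TateRel R) {n : ℕ}
    (e : Basis (Fin n) ℂ_[p] (ℂ_[p] ⊗[ℚ_[p]] V)) (h : Fin n → ℤ) (hinj : Function.Injective h)
    (he : BasisRel R h e) (X : Submodule ℂ_[p] (ℂ_[p] ⊗[ℚ_[p]] V))
    (hX : ∀ σ T u, R σ T u → ∀ x ∈ X, semi σ T x ∈ X) :
    ∀ (m : ℕ) (x : ℂ_[p] ⊗[ℚ_[p]] V), x ∈ X → (e.repr x).support.card = m →
      ∀ i, e.repr x i ≠ 0 → e i ∈ X := by
  classical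
  intro m
  induction m using Nat.strong_induction_on with
  | _ m ih =>
    intro x hx hm i hi
    by_cases hone : ∀ k, e.repr x k ≠ 0 → k = i
    · have h1 : x = e.repr x i • e i := by
        conv_lhs => rw [← e.sum_repr x]
        rw [Finset.sum_eq_single i]
        · intro k _ hk
          have : e.repr x k = 0 := by
            by_contra h0
            exact hk (hone k h0)
          rw [this, zero_smul]
        · intro h0; exact absurd (Finset.mem_univ i) h0
      have h2 : (e.repr x i)⁻¹ • x = e i := (inv_smul_eq_iff₀ hi).2 h1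
      rw [← h2]
      exact X.smul_mem _ hx
    · push Not at hone
      obtain ⟨k, hk, hki⟩ := hone
      have hsuppi : i ∈ (e.repr x).support := Finsupp.mem_support_iff.2 hi
      have hsuppk : k ∈ (e.repr x).support := Finsupp.mem_support_iff.2 hk
      obtain ⟨σ, T, χ, hc, hne⟩ := hR (e.repr x k / e.repr x i) (div_ne_zero hk hi)
        (h k - h i) (sub_ne_zero.2 fun hh => hki (hinj hh))
      obtain ⟨hχ0, heT⟩ := he σ T χ hc
      have hrepr : ∀ j, e.repr (semi σ T x) j =
          galC σ (e.repr x j) * algebraMap ℚ_[p] ℂ_[p] (χ ^ (-h j)) :=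
        fun j => repr_semi e σ T _ heT x j
      have hgi : galC σ (e.repr x i) ≠ 0 := by
        intro h0
        rw [← norm_eq_zero, norm_galC, norm_eq_zero] at h0
        exact hi h0
      set y := (e.repr x i) • semi σ T x -
        (galC σ (e.repr x i) * algebraMap ℚ_[p] ℂ_[p] (χ ^ (-h i))) • x with hy
      have hyX : y ∈ X := X.sub_mem (X.smul_mem _ (hX σ T χ hc x hx)) (X.smul_mem _ hx)
      have hyr : ∀ j, e.repr y j = e.repr x i * (galC σ (e.repr x j) *
          algebraMap ℚ_[p] ℂ_[p] (χ ^ (-h j))) -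
          (galC σ (e.repr x i) * algebraMap ℚ_[p] ℂ_[p] (χ ^ (-h i))) * e.repr x j := by
        intro j
        rw [hy, map_sub, map_smul, map_smul, Finsupp.sub_apply, Finsupp.smul_apply,
          Finsupp.smul_apply, hrepr, smul_eq_mul, smul_eq_mul]
      have hyi : e.repr y i = 0 := by rw [hyr]; ring
      have hysub : (e.repr y).support ⊆ (e.repr x).support.erase i := by
        intro j hj
        rw [Finsupp.mem_support_iff] at hj
        rw [Finset.mem_erase, Finsupp.mem_support_iff]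
        refine ⟨fun h0 => hj (h0 ▸ hyi), fun h0 => hj ?_⟩
        rw [hyr, h0]; simp
      have hyk : e.repr y k ≠ 0 := by
        intro h0
        apply hne
        rw [hyr] at h0
        rw [map_div₀, div_eq_iff hgi]
        have e1 : algebraMap ℚ_[p] ℂ_[p] (χ ^ (h k - h i)) =
            algebraMap ℚ_[p] ℂ_[p] (χ ^ (-h i)) / algebraMap ℚ_[p] ℂ_[p] (χ ^ (-h k)) := by
          rw [← map_div₀, ← zpow_sub₀ hχ0]
          congr 2
          ring
        have hk0 : algebraMap ℚ_[p] ℂ_[p] (χ ^ (-h k)) ≠ 0 := by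
          rw [Ne, map_eq_zero]
          exact zpow_ne_zero _ hχ0
        rw [e1]
        field_simp
        linear_combination h0
      have hcard : (e.repr y).support.card < m := by
        rw [← hm]
        refine lt_of_le_of_lt (Finset.card_le_card hysub) ?_
        exact Finset.card_erase_lt_of_mem hsuppi
      have hek : e k ∈ X := ih _ hcard y hyX rfl k hyk
      set z := x - e.repr x k • e k with hz
      have hzX : z ∈ X := X.sub_mem hx (X.smul_mem _ hek)
      have hzr : ∀ j, e.repr z j = if j = k then 0 else e.repr x j := by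
        intro j
        rw [hz, map_sub, map_smul, e.repr_self, Finsupp.sub_apply, Finsupp.smul_apply,
          Finsupp.single_apply]
        split_ifs with h1 h2 h2
        · rw [← h1]; simp
        · exact absurd h1.symm h2
        · exact absurd h2.symm h1
        · simp
      have hzsub : (e.repr z).support ⊆ (e.repr x).support.erase k := by
        intro j hj
        rw [Finsupp.mem_support_iff, hzr] at hj
        rw [Finset.mem_erase, Finsupp.mem_support_iff]
        split_ifs at hj with h1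
        · exact absurd rfl hj
        · exact ⟨h1, hj⟩
      have hcard' : (e.repr z).support.card < m := by
        rw [← hm]
        refine lt_of_le_of_lt (Finset.card_le_card hzsub) ?_
        exact Finset.card_erase_lt_of_mem hsuppk
      refine ih _ hcard' z hzX rfl i ?_
      rw [hzr, if_neg (Ne.symm hki)]
      exact hi

/-- An adapted basis of a stable subspace, arbitrary weights. -/
theorem exists_adapted_abs {R : Rel p V} {n : ℕ}
    (h : Fin n → ℤ) (e : Basis (Fin n) ℂ_[p] (ℂ_[p] ⊗[ℚ_[p]] V)) (he : BasisRel R h e)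
    (X : Submodule ℂ_[p] (ℂ_[p] ⊗[ℚ_[p]] V))
    (hX : ∀ σ T u, R σ T u → ∀ x ∈ X, semi σ T x ∈ X) :
    ∃ (J : Fin (finrank ℂ_[p] X) → Fin n) (v : Fin (finrank ℂ_[p] X) → ℂ_[p] ⊗[ℚ_[p]] V),
      (∀ j, v j ∈ X) ∧ LinearIndependent ℂ_[p] v ∧
      ∀ σ T u, R σ T u → ∀ j, semi σ T (v j) =
        algebraMap ℚ_[p] ℂ_[p] (u ^ (-h (J j))) • v j := by
  classical
  have hfinV : FiniteDimensional ℂ_[p] (ℂ_[p] ⊗[ℚ_[p]] V) := e.finiteDimensional_of_finite
  obtain ⟨κ, a, ha, hspan, hli⟩ := exists_linearIndependent' (K := ℂ_[p])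
    (fun i : Fin n => X.mkQ (e i))
  have hfin : Fintype κ := Fintype.ofInjective a ha
  have htop : Submodule.span ℂ_[p] (Set.range fun i : Fin n => X.mkQ (e i)) = ⊤ := by
    have h1 : (Set.range fun i : Fin n => X.mkQ (e i)) = X.mkQ '' (Set.range e) := by
      rw [← Set.range_comp]; rfl
    rw [h1, Submodule.span_image, e.span_eq, Submodule.map_top, LinearMap.range_eq_top]
    exact Submodule.mkQ_surjective X
  rw [htop] at hspan
  have hc : ∀ i : Fin n, ∃ c : κ → ℂ_[p], ∑ k, c k • X.mkQ (e (a k)) = X.mkQ (e i) := by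
    intro i
    have h1 : X.mkQ (e i) ∈ Submodule.span ℂ_[p]
        (Set.range ((fun i : Fin n => X.mkQ (e i)) ∘ a)) := by
      rw [hspan]; trivial
    exact (Submodule.mem_span_range_iff_exists_fun _).1 h1
  choose c hc using hc
  have hcardκ : Fintype.card κ + finrank ℂ_[p] X = n := by
    have h1 : finrank ℂ_[p] ((ℂ_[p] ⊗[ℚ_[p]] V) ⧸ X) = Fintype.card κ := by
      rw [← finrank_top ℂ_[p] ((ℂ_[p] ⊗[ℚ_[p]] V) ⧸ X), ← hspan, finrank_span_eq_card hli]
    have h2 := Submodule.finrank_quotient_add_finrank X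
    rw [h1, finrank_eq_card_basis e, Fintype.card_fin] at h2
    exact h2
  set Jc : Finset (Fin n) := (Finset.univ.image a)ᶜ with hJc
  have hJcard : Jc.card = finrank ℂ_[p] X := by
    rw [hJc, Finset.card_compl, Finset.card_image_of_injective _ ha, Finset.card_univ,
      Fintype.card_fin]
    omega
  have hmem : ∀ i, i ∈ Jc ↔ ∀ k, a k ≠ i := by
    intro i
    rw [hJc, Finset.mem_compl, Finset.mem_image]
    push Not
    exact ⟨fun h k => h k (Finset.mem_univ k), fun h k _ => h k⟩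
  let ε : Fin (finrank ℂ_[p] X) ≃ Jc := (finCongr hJcard.symm).trans Jc.equivFin.symm
  let u : Fin n → ℂ_[p] ⊗[ℚ_[p]] V := fun i => e i - ∑ k, c i k • e (a k)
  have huX : ∀ i, u i ∈ X := by
    intro i
    rw [← Submodule.ker_mkQ X, LinearMap.mem_ker, map_sub, map_sum]
    simp only [map_smul]
    rw [hc, sub_self]
  have hrepr : ∀ i ∈ Jc, ∀ j, e.repr (u j) i = if j = i then 1 else 0 := by
    intro i hi j
    rw [map_sub, e.repr_self, Finsupp.sub_apply, Finsupp.single_apply, map_sum,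
      Finsupp.finsetSum_apply]
    have h1 : ∑ k, e.repr (c j k • e (a k)) i = 0 := by
      refine Finset.sum_eq_zero fun k _ => ?_
      rw [map_smul, e.repr_self, Finsupp.smul_apply, Finsupp.single_apply,
        if_neg ((hmem i).1 hi k), smul_zero]
    rw [h1, sub_zero]
  have hzero : ∀ z ∈ X, (∀ i ∈ Jc, e.repr z i = 0) → z = 0 := by
    intro z hz hz0
    have h1 : z = ∑ k, e.repr z (a k) • e (a k) := by
      conv_lhs => rw [← e.sum_repr z]
      have h2 : ∑ k, e.repr z (a k) • e (a k) =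
          ∑ i ∈ Finset.univ.image a, e.repr z i • e i := by
        rw [Finset.sum_image (fun x _ y _ hxy => ha hxy)]
      rw [h2]
      symm
      apply Finset.sum_subset (Finset.subset_univ _)
      intro i _ hi
      rw [hz0 i (by rw [hJc, Finset.mem_compl]; exact hi), zero_smul]
    have h2 : X.mkQ z = 0 := by
      rw [← LinearMap.mem_ker, Submodule.ker_mkQ]; exact hz
    rw [h1, map_sum] at h2
    simp only [map_smul] at h2
    have h3 := Fintype.linearIndependent_iff.1 hli _ h2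
    rw [h1]
    exact Finset.sum_eq_zero fun k _ => by rw [h3 k, zero_smul]
  refine ⟨fun j => ε j, fun j => u (ε j), fun j => huX _, ?_, ?_⟩
  · rw [Fintype.linearIndependent_iff]
    intro g hg j
    have h1 := congrArg (fun z => e.repr z (ε j)) hg
    simp only [map_sum, map_smul, Finsupp.finsetSum_apply, Finsupp.smul_apply, map_zero,
      Finsupp.zero_apply, smul_eq_mul] at h1
    rw [Finset.sum_eq_single j] at h1
    · rw [hrepr _ (ε j).2, if_pos rfl, mul_one] at h1
      exact h1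
    · intro k _ hk
      rw [hrepr _ (ε j).2, if_neg, mul_zero]
      intro h2
      exact hk (ε.injective (Subtype.ext h2))
    · intro h2; exact absurd (Finset.mem_univ j) h2
  · intro σ T t hcσ j
    obtain ⟨-, heT⟩ := he σ T t hcσ
    rw [← sub_eq_zero]
    apply hzero
    · exact X.sub_mem (hX σ T t hcσ _ (huX _)) (X.smul_mem _ (huX _))
    · intro i hi
      rw [map_sub, Finsupp.sub_apply, map_smul, Finsupp.smul_apply,
        repr_semi e σ T _ heT, hrepr i hi, smul_eq_mul]
      split_ifs with h1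
      · rw [map_one, one_mul, mul_one]
        dsimp only
        rw [h1, sub_self]
      · rw [map_zero, zero_mul, mul_zero, sub_self]

variable [FiniteDimensional ℚ_[p] V]

omit [FiniteDimensional ℚ_[p] V] in
theorem finrank_ext {d : ℕ} {U : Submodule ℚ_[p] V} (b : Basis (Fin d) ℚ_[p] U) :
    finrank ℂ_[p] (ext U) = d := by
  have h1 : ext U = Submodule.span ℂ_[p]
      (Set.range fun k => (1 : ℂ_[p]) ⊗ₜ[ℚ_[p]] (b k : V)) := by
    ext x
    rw [mem_ext_iff b, Submodule.mem_span_range_iff_exists_fun]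
  rw [h1, finrank_span_eq_card (linearIndependent_one_tmul b), Fintype.card_fin]

/-- **Determinant of a stable subspace**, arbitrary weights. -/
theorem exists_det_abs {R : Rel p V} {n : ℕ} (h : Fin n → ℤ)
    (e : Basis (Fin n) ℂ_[p] (ℂ_[p] ⊗[ℚ_[p]] V)) (he : BasisRel R h e)
    (U : Submodule ℚ_[p] V) (hU : ∀ σ T u, R σ T u → ∀ x ∈ U, T x ∈ U) :
    ∃ (H : ℤ) (c : ℂ_[p]), c ≠ 0 ∧ ∀ σ T u (hR : R σ T u),
      galC σ c * algebraMap ℚ_[p] ℂ_[p] (LinearMap.det (T.restrict (hU σ T u hR))) =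
        algebraMap ℚ_[p] ℂ_[p] (u ^ (-H)) * c := by
  classical
  set d := finrank ℚ_[p] U with hd
  let b : Basis (Fin d) ℚ_[p] U := Module.finBasis ℚ_[p] U
  have hX : ∀ σ T u, R σ T u → ∀ x ∈ ext U, semi σ T x ∈ ext U :=
    fun σ T u hR x hx => semi_mem_ext σ T (hU σ T u hR) x hx
  have hdim : finrank ℂ_[p] (ext U) = d := finrank_ext b
  obtain ⟨J, v, hvX, hvli, hvs⟩ := exists_adapted_abs h e he (ext U) hX
  let ε : Fin d ≃ Fin (finrank ℂ_[p] (ext U)) := finCongr hdim.symm
  choose M hM using fun j : Fin d => (mem_ext_iff b (v (ε j))).1 (hvX _)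
  have hM' : ∀ j, v (ε j) = ∑ k, (Matrix.of M) j k • ((1 : ℂ_[p]) ⊗ₜ[ℚ_[p]] (b k : V)) :=
    fun j => (hM j).symm
  have hdet0 : (Matrix.of M).det ≠ 0 :=
    det_ne_zero_of_linearIndependent b (fun j => v (ε j)) _ hM' (hvli.comp _ ε.injective)
  refine ⟨∑ j : Fin d, h (J (ε j)), (Matrix.of M).det, hdet0, fun σ T u hR => ?_⟩
  have hu0 := (he σ T u hR).1
  have h1 := det_relation b (fun j => v (ε j)) (Matrix.of M) hM' σ T (hU σ T u hR)
    (fun j => algebraMap ℚ_[p] ℂ_[p] (u ^ (-h (J (ε j))))) (fun j => hvs σ T u hR (ε j))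
  have h2 : ∏ j : Fin d, algebraMap ℚ_[p] ℂ_[p] (u ^ (-h (J (ε j)))) =
      algebraMap ℚ_[p] ℂ_[p] (u ^ (-∑ j : Fin d, h (J (ε j)))) := by
    rw [← map_prod]
    congr 1
    rw [← Finset.sum_neg_distrib]
    generalize (Finset.univ : Finset (Fin d)) = s
    induction s using Finset.induction_on with
    | empty => simp
    | insert i s hi ih => rw [Finset.prod_insert hi, Finset.sum_insert hi, zpow_add₀ hu0, ih]
  rw [h2] at h1
  exact h1

/-- **Determinant of a stable subspace**, distinct weights. -/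
theorem exists_det_distinct {R : Rel p V} (hT : TateRel R) {n : ℕ} (h : Fin n → ℤ)
    (hinj : Function.Injective h)
    (e : Basis (Fin n) ℂ_[p] (ℂ_[p] ⊗[ℚ_[p]] V)) (he : BasisRel R h e)
    (U : Submodule ℚ_[p] V) (hU : ∀ σ T u, R σ T u → ∀ x ∈ U, T x ∈ U)
    (J : Finset (Fin n)) (hJ : ∀ j, j ∈ J ↔ e j ∈ ext U) :
    J.card = finrank ℚ_[p] U ∧ ∃ c : ℂ_[p], c ≠ 0 ∧ ∀ σ T u (hR : R σ T u),
      galC σ c * algebraMap ℚ_[p] ℂ_[p] (LinearMap.det (T.restrict (hU σ T u hR))) =
        algebraMap ℚ_[p] ℂ_[p] (u ^ (-∑ j ∈ J, h j)) * c := by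
  classical
  set d := finrank ℚ_[p] U with hd
  let b : Basis (Fin d) ℚ_[p] U := Module.finBasis ℚ_[p] U
  have hX : ∀ σ T u, R σ T u → ∀ x ∈ ext U, semi σ T x ∈ ext U :=
    fun σ T u hR x hx => semi_mem_ext σ T (hU σ T u hR) x hx
  have hcoord : ∀ x ∈ ext U, ∀ i, e.repr x i ≠ 0 → i ∈ J := fun x hx i hi =>
    (hJ i).2 (basis_mem_abs hT e h hinj he (ext U) hX _ x hx rfl i hi)
  have hspan : ext U = Submodule.span ℂ_[p] (Set.range fun j : J => e j) := by
    apply le_antisymm
    · intro x hx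
      rw [← e.sum_repr x]
      refine Submodule.sum_mem _ fun i _ => ?_
      by_cases hi : e.repr x i = 0
      · rw [hi, zero_smul]; exact Submodule.zero_mem _
      · exact Submodule.smul_mem _ _ (Submodule.subset_span ⟨⟨i, hcoord x hx i hi⟩, rfl⟩)
    · rw [Submodule.span_le]
      rintro _ ⟨j, rfl⟩
      exact (hJ j).1 j.2
  have hli : LinearIndependent ℂ_[p] (fun j : J => e j) :=
    e.linearIndependent.comp _ Subtype.val_injective
  have hdim1 : finrank ℂ_[p] (ext U) = J.card := by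
    rw [hspan, finrank_span_eq_card hli, Fintype.card_coe]
  have hdim2 : finrank ℂ_[p] (ext U) = d := finrank_ext b
  have hcard : J.card = d := by rw [← hdim1, hdim2]
  refine ⟨hcard, ?_⟩
  let ε : Fin d ≃ J := (finCongr hcard.symm).trans J.equivFin.symm
  choose M hM using fun j : Fin d => (mem_ext_iff b (e (ε j))).1 ((hJ _).1 (ε j).2)
  have hM' : ∀ j, e (ε j) = ∑ k, (Matrix.of M) j k • ((1 : ℂ_[p]) ⊗ₜ[ℚ_[p]] (b k : V)) :=
    fun j => (hM j).symm
  have hdet0 : (Matrix.of M).det ≠ 0 :=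
    det_ne_zero_of_linearIndependent b (fun j => e (ε j)) _ hM' (hli.comp _ ε.injective)
  refine ⟨(Matrix.of M).det, hdet0, fun σ T u hR => ?_⟩
  obtain ⟨hu0, heT⟩ := he σ T u hR
  have h1 := det_relation b (fun j => e (ε j)) (Matrix.of M) hM' σ T (hU σ T u hR)
    (fun j => algebraMap ℚ_[p] ℂ_[p] (u ^ (-h (ε j)))) (fun j => heT (ε j))
  have h2 : ∏ j : Fin d, algebraMap ℚ_[p] ℂ_[p] (u ^ (-h (ε j))) =
      algebraMap ℚ_[p] ℂ_[p] (u ^ (-∑ j ∈ J, h j)) := by
    rw [← map_prod]
    congr 1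
    rw [Equiv.prod_comp ε (fun j : J => u ^ (-h j)),
      Finset.prod_coe_sort J (fun j => u ^ (-h j)), ← Finset.sum_neg_distrib]
    generalize J = s
    induction s using Finset.induction_on with
    | empty => simp
    | insert i s hi ih => rw [Finset.prod_insert hi, Finset.sum_insert hi, zpow_add₀ hu0, ih]
  rw [h2] at h1
  exact h1

end

end Pool.Agent.NF
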