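import Mathlib
import Pool.Agent.Lib.Helper90.GSem.Defs

/-!
# Definitions: `p`-adic representations of the absolute Galois group of a number field

`Ω` is an algebraic closure of `ℚ` and `Γ` a subgroup of `Gal(Ω/ℚ)`, in the applications the group
`Gal(Ω/F)` of a number field `F` contained in `Ω`.
-/

namespace Pool.Agent.NF

open NumberField TensorProduct Module Polynomial Pool.Agent.GSem

variable {p : ℕ} [hp : Fact p.Prime] {Ω : Type*} [Field Ω] [CharZero Ω]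
variable {Γ : Subgroup Gal(Ω/ℚ)} {V : Type*} [AddCommGroup V] [Module ℚ_[p] V]

/-- The matrix coefficients of `ρ` are continuous. -/
def IsContRep (ρ : Representation ℚ_[p] Γ V) : Prop :=
  ∀ (v : V) (f : Dual ℚ_[p] V), Continuous fun g => f (ρ g v)

/-- `e` is a basis of `ℂ_p ⊗ V` such that the elements of `Γ` induced, through the embedding `ι`, by
elements of the local Galois group act on `e i` through the power `- h i` of the cyclotomic
character. -/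
def IsHTBasisAt (ι : Ω →+* PadicAlgCl p) (ρ : Representation ℚ_[p] Γ V) {n : ℕ}
    (h : Fin n → ℤ) (e : Basis (Fin n) ℂ_[p] (ℂ_[p] ⊗[ℚ_[p]] V)) : Prop :=
  ∀ σ (g : Γ), Compat ι σ (g : Gal(Ω/ℚ)) → ∀ i, semi σ (ρ g) (e i) =
    algebraMap ℚ_[p] ℂ_[p] (toQ (cyc p Ω (g : Gal(Ω/ℚ))) ^ (-h i)) • e i

/-- `B` is a nondegenerate pairing `V × V → ℚ_p(-w)` compatible with the Galois action. -/
def IsPol (ρ : Representation ℚ_[p] Γ V) (w : ℤ)
    (B : V →ₗ[ℚ_[p]] V →ₗ[ℚ_[p]] ℚ_[p]) : Prop :=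
  (∀ x, (∀ y, B x y = 0) → x = 0) ∧
    ∀ g x y, B (ρ g x) (ρ g y) = toQ (cyc p Ω (g : Gal(Ω/ℚ))) ^ (-w) * B x y

/-- `ρ` is pure of weight `w` at all places above some prime `q ≠ p`: for a Frobenius element `φ` at
`q` and some `m > 0` all conjugates `x⁻¹ φ ^ m x` belong to `Γ` (they are powers of Frobenius
elements, of degree `m`, at the places of `F` above `q`) and are pure of weight `w`. -/
def IsPureAbove (ρ : Representation ℚ_[p] Γ V) (w : ℤ) : Prop :=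
  ∃ (q m : ℕ) (φ : Gal(Ω/ℚ)), q.Prime ∧ q ≠ p ∧ 0 < m ∧ IsFrobAt q φ ∧
    ∀ x : Gal(Ω/ℚ), ∃ hx : x⁻¹ * φ ^ m * x ∈ Γ, IsPureOp (q ^ m) w (ρ ⟨x⁻¹ * φ ^ m * x, hx⟩)

/-- Every stable subspace has a stable complement. -/
def IsSemisimpleRep (ρ : Representation ℚ_[p] Γ V) : Prop :=
  ∀ W : Submodule ℚ_[p] V, (∀ g, ∀ x ∈ W, ρ g x ∈ W) →
    ∃ W' : Submodule ℚ_[p] V, (∀ g, ∀ x ∈ W', ρ g x ∈ W') ∧ IsCompl W W'

end Pool.Agent.NF
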