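import Mathlib
import Pool.Agent.Lib.H99.NF.Defs

/-!
# Definitions: weights and monodromy
-/

namespace Pool.Agent.NF

open NumberField TensorProduct Module Polynomial Pool.Agent.GSem

variable {p : ℕ} [hp : Fact p.Prime] {Ω : Type*} [Field Ω] [CharZero Ω]
variable {Γ : Subgroup Gal(Ω/ℚ)} {V : Type*} [AddCommGroup V] [Module ℚ_[p] V]

/-- The pair `(T, N)` of a Frobenius operator and a monodromy operator satisfies the
weight–monodromy condition of weight `w`: the space `V` is the sum of the parts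
`wtPart T P i = ker (P i) (T)` on which `T` has weight `i` (here `i ∈ S`), and `N ^ j` induces a
bijection from the part of weight `w + j` to the part of weight `w - j`. -/
def IsWM (q : ℕ) (w : ℤ) (T N : V →ₗ[ℚ_[p]] V) (P : ℤ → ℚ[X]) (S : Finset ℤ) : Prop :=
  IsNilpotent N ∧ (∀ y, T (N y) = (q : ℚ_[p]) • N (T y)) ∧ (∀ i, HasWeight q i (P i)) ∧
    aeval T ((∏ i ∈ S, P i).map (algebraMap ℚ ℚ_[p])) = 0 ∧
    ∀ j : ℕ, Set.BijOn (N ^ j) (wtPart T P (w + j)) (wtPart T P (w - j))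

/-- The weight–monodromy condition for the operator `ρ g` and for the logarithm `N` of an operator
`ρ τ`. -/
def HasWMAt (ρ : Representation ℚ_[p] Γ V) (w : ℤ) (q : ℕ) (g : Γ) : Prop :=
  ∃ (τ : Γ) (N : V →ₗ[ℚ_[p]] V) (P : ℤ → ℚ[X]) (S : Finset ℤ),
    ρ τ = nexp N ∧ IsWM q w (ρ g) N P S

/-- `ρ` is Hodge–Tate at all embeddings: for every embedding `ι` there is a basis of `ℂ_p ⊗ V` as in
`IsHTBasisAt`, for some weights. -/
def IsHodgeTateAll (ρ : Representation ℚ_[p] Γ V) : Prop :=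
  ∀ ι : Ω →+* PadicAlgCl p, ∃ (n : ℕ) (h : Fin n → ℤ)
    (e : Basis (Fin n) ℂ_[p] (ℂ_[p] ⊗[ℚ_[p]] V)), IsHTBasisAt ι ρ h e

/-- `T` has finitely many weights, `N ^ j` is injective on the part of weight `w + j`, and the
dimension of the part of weight `w + j` is at most one more than that of the part of weight
`w + j + 2`. For a polarised representation this means that the weight–monodromy condition holds and
`N` has at most one Jordan block of each size. -/
def HasDistinctBlocks (q : ℕ) (w : ℤ) (T N : V →ₗ[ℚ_[p]] V) : Prop :=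
  ∃ (P : ℤ → ℚ[X]) (S : Finset ℤ), (∀ i, HasWeight q i (P i)) ∧
    aeval T ((∏ i ∈ S, P i).map (algebraMap ℚ ℚ_[p])) = 0 ∧
    (∀ j : ℕ, ∀ x ∈ wtPart T P (w + j), (N ^ j) x = 0 → x = 0) ∧
    ∀ j : ℕ, finrank ℚ_[p] (wtPart T P (w + j)) ≤ finrank ℚ_[p] (wtPart T P (w + j + 2)) + 1

/-- For every subgroup `G` of finite index, the only stable subspaces are `0` and `V` and the only
endomorphisms are the scalars. -/
def IsStronglyIrreducible (ρ : Representation ℚ_[p] Γ V) : Prop :=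
  ∀ G : Subgroup Γ, G.FiniteIndex →
    (∀ W : Submodule ℚ_[p] V, (∀ g ∈ G, ∀ x ∈ W, ρ g x ∈ W) → W = ⊥ ∨ W = ⊤) ∧
      ∀ f : V →ₗ[ℚ_[p]] V, (∀ g ∈ G, ∀ x, f (ρ g x) = ρ g (f x)) →
        ∃ c : ℚ_[p], ∀ x, f x = c • x

end Pool.Agent.NF
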