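import Mathlib
import Pool.Agent.Lib.Helper90.GSem.Rep
import Pool.Agent.Lib.H99.PD.Tate2

/-!
# Characters of the Galois group of a number field: the transfer
-/

namespace Pool.Agent.NF

open NumberField Module Pool.Agent.GSem Pool.Agent.PD Topology

section transfer

variable {G : Type*} [Group G] (Γ : Subgroup G) [Γ.FiniteIndex]

omit [Γ.FiniteIndex] in
theorem conj_mem_of_core {g : G} (hg : g ∈ Γ.normalCore) (x : G) : x⁻¹ * g * x ∈ Γ := by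
  have h1 := hg x⁻¹
  rw [inv_inv] at h1
  exact h1

/-- The transfer on the normal core. -/
theorem transfer_core {A : Type*} [CommGroup A] (δ : Γ →* A) [Fintype (G ⧸ Γ)] {g : G}
    (hg : g ∈ Γ.normalCore) :
    MonoidHom.transfer δ g = ∏ x : G ⧸ Γ, δ ⟨x.out⁻¹ * g * x.out, conj_mem_of_core Γ hg _⟩ := by
  classical
  let T : Γ.LeftTransversal := ⟨Set.range Quotient.out,
    Subgroup.isComplement_range_left Quotient.out_eq'⟩
  have hT : ∀ q : G ⧸ Γ, ((T.2.leftQuotientEquiv q : T.1) : G) = q.out := fun q =>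
    Subgroup.IsComplement.leftQuotientEquiv_apply Quotient.out_eq' q
  rw [MonoidHom.transfer_def δ T g]
  simp only [Subgroup.leftTransversals.diff]
  refine Finset.prod_congr (by ext; simp) fun q _ => ?_
  congr 1
  apply Subtype.ext
  have h1 : ((g • T).2.leftQuotientEquiv q : G) = g * (T.2.leftQuotientEquiv (g⁻¹ • q) : G) := by
    rw [Subgroup.smul_apply_eq_smul_apply_inv_smul]
    rfl
  have h2 : g⁻¹ • q = q := by
    obtain ⟨x, rfl⟩ := QuotientGroup.mk_surjective q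
    rw [MulAction.Quotient.smul_coe, smul_eq_mul, QuotientGroup.eq]
    have h3 := conj_mem_of_core Γ hg x
    have h4 : (g⁻¹ * x)⁻¹ * x = x⁻¹ * g * x := by group
    rw [h4]
    exact h3
  change ((T.2.leftQuotientEquiv q : T.1) : G)⁻¹ * ((g • T).2.leftQuotientEquiv q : G) = _
  rw [h1, h2, hT, ← mul_assoc]

end transfer

section char

variable {p : ℕ} [hp : Fact p.Prime] {Ω : Type*} [Field Ω] [CharZero Ω]

/-- The embedding `ι ∘ x`. -/
noncomputable def twistEmb (ι : Ω →+* PadicAlgCl p) (x : Gal(Ω/ℚ)) : Ω →+* PadicAlgCl p :=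
  ι.comp ((x : Ω ≃+* Ω) : Ω →+* Ω)

@[simp]
theorem twistEmb_apply (ι : Ω →+* PadicAlgCl p) (x : Gal(Ω/ℚ)) (y : Ω) :
    twistEmb ι x y = ι (x y) := rfl

theorem compat_conj {ι : Ω →+* PadicAlgCl p} {σ : Gal(PadicAlgCl p/ℚ_[p])} {g : Gal(Ω/ℚ)}
    (h : Compat ι σ g) (x : Gal(Ω/ℚ)) : Compat (twistEmb ι x) σ (x⁻¹ * g * x) := by
  intro y
  rw [twistEmb_apply, twistEmb_apply, AlgEquiv.mul_apply, AlgEquiv.mul_apply]
  have h1 : x (x⁻¹ (g (x y))) = g (x y) := x.apply_symm_apply _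
  rw [h1]
  exact h _

theorem cyc_conj (x g : Gal(Ω/ℚ)) : cyc p Ω (x⁻¹ * g * x) = cyc p Ω g := by
  rw [map_mul, map_mul, map_inv, mul_comm, ← mul_assoc, mul_inv_cancel, one_mul]

variable [IsAlgClosed Ω] [IsGalois ℚ Ω]

omit [IsAlgClosed Ω] in
theorem exists_open_normal_le (Γ : Subgroup Gal(Ω/ℚ)) (hΓ : IsOpen (Γ : Set Gal(Ω/ℚ))) :
    ∃ N : Subgroup Gal(Ω/ℚ), N.Normal ∧ IsOpen (N : Set Gal(Ω/ℚ)) ∧ N ≤ Γ.normalCore := by
  obtain ⟨N, hN⟩ := ProfiniteGrp.exist_openNormalSubgroup_sub_open_nhds_of_one hΓ (one_mem Γ)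
  refine ⟨N.toSubgroup, N.isNormal', N.isOpen', ?_⟩
  have := N.isNormal'
  rw [Subgroup.normal_le_normalCore]
  exact hN

omit [IsAlgClosed Ω] in
/-- The transfer of a continuous character is continuous. -/
theorem continuous_transfer (Γ : Subgroup Gal(Ω/ℚ)) [Γ.FiniteIndex]
    (hΓ : IsOpen (Γ : Set Gal(Ω/ℚ))) (δ : Γ →* ℤ_[p]ˣ) (hδ : Continuous δ) :
    Continuous (MonoidHom.transfer δ) := by
  classical
  let _ : Fintype (Gal(Ω/ℚ) ⧸ Γ) := Subgroup.fintypeQuotientOfFiniteIndex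
  obtain ⟨N, hNn, hNo, hN⟩ := exists_open_normal_le Γ hΓ
  apply continuous_of_continuousAt_one
  have h1 : ContinuousOn (MonoidHom.transfer δ) (N : Set Gal(Ω/ℚ)) := by
    rw [continuousOn_iff_continuous_domRestrict]
    have h2 : (N : Set Gal(Ω/ℚ)).domRestrict (MonoidHom.transfer δ) = fun g : N =>
        ∏ x : Gal(Ω/ℚ) ⧸ Γ, δ ⟨x.out⁻¹ * (g : Gal(Ω/ℚ)) * x.out,
          conj_mem_of_core Γ (hN g.2) _⟩ := by
      funext g
      exact transfer_core Γ δ (hN g.2)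
    rw [h2]
    refine continuous_finsetProd _ fun x _ => hδ.comp ?_
    refine Continuous.subtype_mk ?_ _
    fun_prop
  exact h1.continuousAt (hNo.mem_nhds (one_mem N))

/-- **Main relation.** A continuous character `δ` of an open subgroup `Γ` of `G_ℚ` which over `ℂ_p`
becomes the power `- H x` of the cyclotomic character for the embeddings `ι ∘ x`, `x ∈ G_ℚ / Γ`. Then
the product of the conjugates of `δ` is, up to finite order, the power `- ∑ H x`. -/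
theorem exists_transfer_relation (Γ : Subgroup Gal(Ω/ℚ)) [Γ.FiniteIndex]
    (hΓ : IsOpen (Γ : Set Gal(Ω/ℚ))) [Fintype (Gal(Ω/ℚ) ⧸ Γ)] (δ : Γ →* ℤ_[p]ˣ)
    (hδ : Continuous δ)
    (ι : Ω →+* PadicAlgCl p) (H : Gal(Ω/ℚ) ⧸ Γ → ℤ) (c : Gal(Ω/ℚ) ⧸ Γ → ℂ_[p])
    (hc0 : ∀ x, c x ≠ 0)
    (hc : ∀ x σ (g : Γ), Compat (twistEmb ι x.out) σ g →
      galC σ (c x) * algebraMap ℚ_[p] ℂ_[p] (toQ (δ g)) =
        algebraMap ℚ_[p] ℂ_[p] (toQ (cyc p Ω (g : Gal(Ω/ℚ))) ^ (-H x)) * c x) :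
    ∃ M : ℕ, 0 < M ∧ ∀ (g : Gal(Ω/ℚ)) (hg : g ∈ Γ.normalCore),
      (∏ x : Gal(Ω/ℚ) ⧸ Γ, δ ⟨x.out⁻¹ * g * x.out, conj_mem_of_core Γ hg _⟩) ^ M =
        (cyc p Ω g) ^ (-(M * ∑ x, H x) : ℤ) := by
  classical
  set Ψ : Gal(Ω/ℚ) →* ℤ_[p]ˣ := MonoidHom.transfer δ with hΨ
  have hΨc : Continuous Ψ := continuous_transfer Γ hΓ δ hδ
  set S : ℤ := ∑ x, H x with hS
  let Φ : Gal(Ω/ℚ) →* ℤ_[p]ˣ := (cyc p Ω) ^ (-S) * Ψ⁻¹
  have hΦ : ∀ g, Φ g = cyc p Ω g ^ (-S) * (Ψ g)⁻¹ := fun g => rfl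
  have hΦc : Continuous Φ := by
    have h1 : (Φ : Gal(Ω/ℚ) → ℤ_[p]ˣ) = fun g => cyc p Ω g ^ (-S) * (Ψ g)⁻¹ := by
      funext g; exact hΦ g
    rw [h1]
    exact ((continuous_cyc p Ω).zpow _).mul hΨc.inv
  -- the relation over the normal core
  have hrel : ∀ σ g, Compat ι σ g → g ∈ Γ.normalCore →
      galC σ (∏ x, c x) = algebraMap ℚ_[p] ℂ_[p] (toQ (Φ g)) * ∏ x, c x := by
    intro σ g hg hgΓ
    have h1 : ∀ x : Gal(Ω/ℚ) ⧸ Γ, galC σ (c x) =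
        algebraMap ℚ_[p] ℂ_[p] (toQ (cyc p Ω g ^ (-H x) *
          (δ ⟨x.out⁻¹ * g * x.out, conj_mem_of_core Γ hgΓ _⟩)⁻¹)) * c x := by
      intro x
      have h2 := hc x σ ⟨x.out⁻¹ * g * x.out, conj_mem_of_core Γ hgΓ _⟩ (compat_conj hg x.out)
      rw [cyc_conj] at h2
      set t := δ ⟨x.out⁻¹ * g * x.out, conj_mem_of_core Γ hgΓ _⟩ with ht
      have h3 : algebraMap ℚ_[p] ℂ_[p] (toQ t) ≠ 0 := by
        rw [Ne, map_eq_zero]
        exact toQ_ne_zero _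
      have h4 : toQ (cyc p Ω g ^ (-H x) * t⁻¹) = toQ (cyc p Ω g) ^ (-H x) * (toQ t)⁻¹ := by
        rw [map_mul, map_zpow, map_inv]
      rw [h4, map_mul, map_inv₀]
      field_simp
      exact h2
    rw [map_prod, Finset.prod_congr rfl fun x _ => h1 x, Finset.prod_mul_distrib, ← map_prod,
      ← map_prod]
    congr 3
    rw [hΦ, hΨ, transfer_core Γ δ hgΓ, Finset.prod_mul_distrib, Finset.prod_inv_distrib]
    congr 1
    rw [hS, ← Finset.sum_neg_distrib]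
    generalize (Finset.univ : Finset (Gal(Ω/ℚ) ⧸ Γ)) = s
    induction s using Finset.induction_on with
    | empty => simp
    | insert i s hi ih => rw [Finset.prod_insert hi, Finset.sum_insert hi, zpow_add, ih]
  obtain ⟨k, hk, c', hc', h⟩ := exists_norm ι Γ.normalCore Φ (∏ x, c x)
    (Finset.prod_ne_zero_iff.2 fun x _ => hc0 x) hrel
  obtain ⟨N, hN, hfin⟩ := finite_order ι (Φ ^ k) (by
    have h1 : ((Φ ^ k : Gal(Ω/ℚ) →* ℤ_[p]ˣ) : Gal(Ω/ℚ) → ℤ_[p]ˣ) = fun g => Φ g ^ k := rfl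
    rw [h1]
    exact hΦc.pow k) c' hc' (by
    intro σ g hg
    rw [h σ g hg]
    congr 2)
  refine ⟨k * N, Nat.mul_pos hk hN, fun g hg => ?_⟩
  have h1 : (Φ g) ^ (k * N) = 1 := by
    rw [pow_mul]
    exact hfin g
  rw [hΦ, hΨ, transfer_core Γ δ hg, mul_pow, inv_pow, mul_inv_eq_one] at h1
  rw [← h1, ← zpow_natCast, ← zpow_mul]
  congr 1
  push_cast
  ring

end char

end Pool.Agent.NF
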