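import Mathlib
import Pool.Agent.Lib.Helper95.Ord.Density
import Pool.Agent.Lib.Helper90.GSem.WD
import Pool.Agent.Lib.H99.NF.Defs
import Pool.Agent.Lib.H99.NF.Abs
import Pool.Agent.Lib.H99.NF.Transfer

/-!
# The sum of the weights of a stable subspace
-/

namespace Pool.Agent.NF

open NumberField TensorProduct Module Polynomial Pool.Agent.GSem Pool.Agent.PD
open scoped Pointwise

section det

variable {K G V : Type*} [Field K] [Group G] [AddCommGroup V] [Module K V]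

/-- The determinant on a stable subspace. -/
noncomputable def detG (ρ : Representation K G V) (U : Submodule K V)
    (hU : ∀ g, ∀ u ∈ U, ρ g u ∈ U) : G →* K where
  toFun g := LinearMap.det ((ρ g).restrict (hU g))
  map_one' := by
    have h1 : (ρ 1).restrict (hU 1) = LinearMap.id := by
      ext u
      rw [LinearMap.coe_restrict_apply, map_one]
      rfl
    rw [h1, LinearMap.det_id]
  map_mul' a b := by
    have h1 : (ρ (a * b)).restrict (hU (a * b)) =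
        (ρ a).restrict (hU a) * (ρ b).restrict (hU b) := by
      ext u
      rw [LinearMap.coe_restrict_apply, map_mul]
      rfl
    rw [h1, map_mul]

end det

section unit

variable {p : ℕ} [hp : Fact p.Prime] {G : Type*} [Group G] [TopologicalSpace G]
  [IsTopologicalGroup G] [CompactSpace G]

/-- A continuous multiplicative function on a compact group has values in the units. -/
theorem exists_unit_charG (D : G →* ℚ_[p]) (hD : Continuous D) :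
    ∃ δ : G →* ℤ_[p]ˣ, Continuous δ ∧ ∀ g, toQ (δ g) = D g := by
  obtain ⟨g₀, _, hg₀⟩ := isCompact_univ.exists_isMaxOn (Set.univ_nonempty (α := G))
    (f := fun x => ‖D x‖) (hD.norm.continuousOn)
  have hb : ∀ g, ‖D g‖ ≤ ‖D g₀‖ := fun g => hg₀ (Set.mem_univ g)
  have hle : ∀ g, ‖D g‖ ≤ 1 := by
    intro g
    by_contra hcon
    push Not at hcon
    obtain ⟨n, hn⟩ := pow_unbounded_of_one_lt ‖D g₀‖ hcon
    have h1 := hb (g ^ n)
    rw [map_pow, norm_pow] at h1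
    linarith
  have hone : ∀ g, ‖D g‖ = 1 := by
    intro g
    have h1 : ‖D g‖ * ‖D g⁻¹‖ = 1 := by
      rw [← norm_mul, ← map_mul, mul_inv_cancel, map_one, norm_one]
    have h2 := hle g
    have h3 := hle g⁻¹
    have h4 := norm_nonneg (D g)
    have h5 := norm_nonneg (D g⁻¹)
    nlinarith
  choose δ hδ using fun g => exists_toQ (hone g)
  refine ⟨⟨⟨δ, ?_⟩, ?_⟩, ?_, hδ⟩
  · apply toQ_injective
    rw [hδ, map_one, map_one]
  · intro a b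
    apply toQ_injective
    rw [map_mul, hδ, hδ, hδ, map_mul]
  · have hval : Continuous fun g => ((δ g : ℤ_[p]ˣ) : ℤ_[p]) := by
      have h1 : (fun g => ((δ g : ℤ_[p]ˣ) : ℤ_[p])) = fun g => ⟨D g, (hone g).le⟩ := by
        funext g
        apply Subtype.ext
        exact hδ g
      rw [h1]
      exact hD.subtype_mk _
    have hinv : ∀ g, ((δ g)⁻¹ : ℤ_[p]ˣ) = δ g⁻¹ := by
      intro g
      apply toQ_injective
      have h1 : toQ (δ g) * toQ (δ g)⁻¹ = 1 := by rw [← map_mul, mul_inv_cancel, map_one]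
      have h2 : toQ (δ g) * toQ (δ g⁻¹) = 1 := by
        rw [hδ, hδ, ← map_mul, mul_inv_cancel, map_one]
      exact mul_left_cancel₀ (toQ_ne_zero (δ g)) (h1.trans h2.symm)
    change Continuous δ
    rw [Units.continuous_iff]
    refine ⟨hval, ?_⟩
    have h3 : (fun g => (((δ g)⁻¹ : ℤ_[p]ˣ) : ℤ_[p])) = fun g => ((δ g⁻¹ : ℤ_[p]ˣ) : ℤ_[p]) := by
      funext g
      rw [hinv]
    exact h3 ▸ hval.comp continuous_inv

end unit

section

variable {p : ℕ} [hp : Fact p.Prime] {Ω : Type*} [Field Ω] [CharZero Ω]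
variable {Γ : Subgroup Gal(Ω/ℚ)} {V : Type*} [AddCommGroup V] [Module ℚ_[p] V]
  [FiniteDimensional ℚ_[p] V]

theorem continuous_detG (ρ : Representation ℚ_[p] Γ V)
    (hρ : IsContRep ρ) (U : Submodule ℚ_[p] V) (hU : ∀ g, ∀ u ∈ U, ρ g u ∈ U) :
    Continuous (detG ρ U hU) := by
  set b := Module.finBasis ℚ_[p] U
  have h1 : ⇑(detG ρ U hU) = fun g => (LinearMap.toMatrix b b ((ρ g).restrict (hU g))).det := by
    funext g
    rw [LinearMap.det_toMatrix]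
    rfl
  rw [h1]
  apply Continuous.matrix_det
  apply continuous_matrix
  intro i j
  obtain ⟨f, hf⟩ := LinearMap.exists_extend (b.coord i)
  have h2 : (fun g => LinearMap.toMatrix b b ((ρ g).restrict (hU g)) i j) =
      fun g => f (ρ g (b j : V)) := by
    funext g
    rw [LinearMap.toMatrix_apply]
    have h3 := LinearMap.congr_fun hf ((ρ g).restrict (hU g) (b j))
    rw [LinearMap.comp_apply, Submodule.subtype_apply, LinearMap.coe_restrict_apply] at h3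
    rw [h3]
    rfl
  rw [h2]
  exact hρ _ _

/-- The relation attached to an embedding. -/
def relAt (ι : Ω →+* PadicAlgCl p) (ρ : Representation ℚ_[p] Γ V) : Rel p V :=
  fun σ T u => ∃ g : Γ, Compat ι σ (g : Gal(Ω/ℚ)) ∧ T = ρ g ∧ u = toQ (cyc p Ω (g : Gal(Ω/ℚ)))

omit [FiniteDimensional ℚ_[p] V] in
theorem basisRel_of_HT {ι : Ω →+* PadicAlgCl p} {ρ : Representation ℚ_[p] Γ V} {n : ℕ}
    {h : Fin n → ℤ} {e : Basis (Fin n) ℂ_[p] (ℂ_[p] ⊗[ℚ_[p]] V)} (he : IsHTBasisAt ι ρ h e) :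
    BasisRel (relAt ι ρ) h e := by
  rintro σ T u ⟨g, hg, rfl, rfl⟩
  exact ⟨toQ_ne_zero _, he σ g hg⟩

omit [FiniteDimensional ℚ_[p] V] in
theorem tateRel_relAt [IsAlgClosed Ω] [Normal ℚ Ω] [Γ.FiniteIndex] (ι : Ω →+* PadicAlgCl p)
    (ρ : Representation ℚ_[p] Γ V) : TateRel (relAt ι ρ) := by
  intro c hc m hm
  obtain ⟨σ, g, hg, hgΓ, hne⟩ := exists_ne_twist_sub ι Γ c hc m hm
  exact ⟨σ, ρ ⟨g, hgΓ⟩, _, ⟨⟨g, hgΓ⟩, hg, rfl, rfl⟩, hne⟩

end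

section main

variable {p : ℕ} [hp : Fact p.Prime] {Ω : Type*} [Field Ω] [CharZero Ω] [IsAlgClosed Ω]
  [IsGalois ℚ Ω]
variable {Γ : Subgroup Gal(Ω/ℚ)} {V : Type*} [AddCommGroup V] [Module ℚ_[p] V]
  [FiniteDimensional ℚ_[p] V]

/-- **Determinants of stable subspaces.** Given the weights `H x` of the determinant of `U` for the
embeddings `ι ∘ x`, the product of the conjugates of the determinant is, up to finite order, the
power `- ∑ H x` of the cyclotomic character. -/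
theorem exists_det_relation [Γ.FiniteIndex] [Fintype (Gal(Ω/ℚ) ⧸ Γ)]
    (hΓ : IsOpen (Γ : Set Gal(Ω/ℚ))) (ι : Ω →+* PadicAlgCl p)
    (ρ : Representation ℚ_[p] Γ V) (hρ : IsContRep ρ)
    (U : Submodule ℚ_[p] V) (hU : ∀ g, ∀ u ∈ U, ρ g u ∈ U)
    (H : Gal(Ω/ℚ) ⧸ Γ → ℤ)
    (hH : ∀ x : Gal(Ω/ℚ) ⧸ Γ, ∃ c : ℂ_[p], c ≠ 0 ∧ ∀ σ (g : Γ),
      Compat (twistEmb ι x.out) σ (g : Gal(Ω/ℚ)) →
      galC σ c * algebraMap ℚ_[p] ℂ_[p] (detG ρ U hU g) =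
        algebraMap ℚ_[p] ℂ_[p] (toQ (cyc p Ω (g : Gal(Ω/ℚ))) ^ (-H x)) * c) :
    ∃ M : ℕ, 0 < M ∧ ∀ (g : Gal(Ω/ℚ)) (hg : ∀ x : Gal(Ω/ℚ), x⁻¹ * g * x ∈ Γ),
      (∏ x : Gal(Ω/ℚ) ⧸ Γ, detG ρ U hU ⟨x.out⁻¹ * g * x.out, hg _⟩) ^ M =
        (toQ (cyc p Ω g)) ^ (-(M * ∑ x, H x) : ℤ) := by
  classical
  have hΓc : IsClosed (Γ : Set Gal(Ω/ℚ)) := Γ.isClosed_of_isOpen hΓ
  have hcomp : CompactSpace Γ := isCompact_iff_compactSpace.1 hΓc.isCompact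
  obtain ⟨δ, hδc, hδ⟩ := exists_unit_charG (detG ρ U hU) (continuous_detG ρ hρ U hU)
  choose c hc0 hc using hH
  obtain ⟨M, hM, hrel⟩ := exists_transfer_relation Γ hΓ δ hδc ι H c hc0 (by
    intro x σ g hg
    rw [hδ]
    exact hc x σ g hg)
  refine ⟨M, hM, fun g hg => ?_⟩
  have hgc : g ∈ Γ.normalCore := by
    intro x
    have := hg x⁻¹
    rwa [inv_inv] at this
  have h1 := congrArg toQ (hrel g hgc)
  rw [map_pow, map_prod, map_zpow] at h1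
  rw [← h1]
  congr 1
  exact Finset.prod_congr rfl fun x _ => (hδ _).symm

omit [IsGalois ℚ Ω] [IsAlgClosed Ω] in
/-- Powers of Frobenius elements. -/
theorem frob_pow {q : ℕ} {φ : Gal(Ω/ℚ)} {Q : Ideal (𝓞 Ω)}
    (h : ∀ x : 𝓞 Ω, φ • x - x ^ q ∈ Q) (m : ℕ) (x : 𝓞 Ω) : φ ^ m • x - x ^ (q ^ m) ∈ Q := by
  induction m generalizing x with
  | zero => simp
  | succ m ih =>
    have h1 := ih (φ • x)
    have h2 : (φ • x) ^ (q ^ m) - x ^ (q ^ (m + 1)) ∈ Q := by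
      rw [pow_succ' q m, pow_mul]
      exact Q.mem_of_dvd (sub_dvd_pow_sub_pow _ _ _) (h x)
    have h3 : φ ^ (m + 1) • x = φ ^ m • (φ • x) := by rw [pow_succ, mul_smul]
    rw [h3]
    have h4 := Q.add_mem h1 h2
    rwa [sub_add_sub_cancel] at h4

theorem cyc_frob_pow {q : ℕ} (hq : q.Prime) (hqp : q ≠ p) {φ : Gal(Ω/ℚ)} (hφ : IsFrobAt q φ)
    (m : ℕ) : toQ (cyc p Ω (φ ^ m)) = (q : ℚ_[p]) ^ m := by
  rw [map_pow, map_pow, toQ_apply, cyc_frob hq hqp hφ, PadicInt.coe_natCast]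

/-- **The sum of the weights**, computed at a prime `q` by means of the absolute values of the
determinants. -/
theorem sum_of_norms [Γ.FiniteIndex] [Fintype (Gal(Ω/ℚ) ⧸ Γ)]
    (J : AlgebraicClosure ℚ_[p] →+* ℂ) {S : ℤ} {M : ℕ} (hM : 0 < M)
    (D : Γ →* ℚ_[p]) {q m : ℕ} (hq : q.Prime) (hqp : q ≠ p) (hm : 0 < m) {φ : Gal(Ω/ℚ)}
    (hφ : IsFrobAt q φ) (hφΓ : ∀ x : Gal(Ω/ℚ), x⁻¹ * φ ^ m * x ∈ Γ)
    (hrel : (∏ x : Gal(Ω/ℚ) ⧸ Γ, D ⟨x.out⁻¹ * φ ^ m * x.out, hφΓ _⟩) ^ M =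
        (toQ (cyc p Ω (φ ^ m))) ^ (-(M * S) : ℤ))
    (a : Gal(Ω/ℚ) ⧸ Γ → ℤ)
    (ha : ∀ x : Gal(Ω/ℚ) ⧸ Γ, ‖J (algebraMap ℚ_[p] _ (D ⟨x.out⁻¹ * φ ^ m * x.out, hφΓ _⟩))‖ ^ 2 =
      ((q ^ m : ℕ) : ℝ) ^ (-a x)) :
    ∑ x, a x = 2 * S := by
  classical
  have hq1 : 1 < q ^ m := Nat.one_lt_pow hm.ne' hq.one_lt
  have hq0 : ((q ^ m : ℕ) : ℝ) ≠ 0 := by
    have : (0 : ℝ) < ((q ^ m : ℕ) : ℝ) := by exact_mod_cast (by omega : 0 < q ^ m)
    exact this.ne'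
  have h1 : (‖J (algebraMap ℚ_[p] _
      (∏ x : Gal(Ω/ℚ) ⧸ Γ, D ⟨x.out⁻¹ * φ ^ m * x.out, hφΓ _⟩))‖ ^ 2) ^ M =
      ((q ^ m : ℕ) : ℝ) ^ (-(2 * S * M)) := by
    rw [← pow_mul, mul_comm 2 M, pow_mul, ← norm_pow, ← map_pow, ← map_pow, hrel,
      cyc_frob_pow hq hqp hφ, map_zpow₀, map_zpow₀, map_pow, map_pow, map_natCast, map_natCast,
      norm_zpow, norm_pow, Complex.norm_natCast, ← zpow_natCast, ← zpow_mul]
    push_cast
    congr 1
    ring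
  have h2 : ‖J (algebraMap ℚ_[p] _
      (∏ x : Gal(Ω/ℚ) ⧸ Γ, D ⟨x.out⁻¹ * φ ^ m * x.out, hφΓ _⟩))‖ ^ 2 =
      ((q ^ m : ℕ) : ℝ) ^ (-∑ x, a x) := by
    rw [map_prod, map_prod, norm_prod, ← Finset.prod_pow, Finset.prod_congr rfl fun x _ => ha x,
      ← Finset.sum_neg_distrib]
    generalize (Finset.univ : Finset (Gal(Ω/ℚ) ⧸ Γ)) = s
    induction s using Finset.induction_on with
    | empty => simp
    | insert i s hi ih => rw [Finset.prod_insert hi, Finset.sum_insert hi, zpow_add₀ hq0, ih]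
  rw [h2, ← zpow_natCast, ← zpow_mul] at h1
  have h3 := zpow_right_injective₀ (by exact_mod_cast (by omega : 0 < q ^ m))
    (by exact_mod_cast (by omega : q ^ m ≠ 1)) h1
  have hM' : (M : ℤ) ≠ 0 := by exact_mod_cast hM.ne'
  have h4 : (∑ x, a x - 2 * S) * M = 0 := by linarith
  have h5 := (mul_eq_zero.1 h4).resolve_right hM'
  linarith

/-- **Purity.** -/
theorem sum_weights [Γ.FiniteIndex] [Fintype (Gal(Ω/ℚ) ⧸ Γ)]
    (hΓ : IsOpen (Γ : Set Gal(Ω/ℚ))) (ι : Ω →+* PadicAlgCl p)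
    (ρ : Representation ℚ_[p] Γ V) (hρ : IsContRep ρ) (w : ℤ) (hpure : IsPureAbove ρ w)
    (U : Submodule ℚ_[p] V) (hU : ∀ g, ∀ u ∈ U, ρ g u ∈ U)
    (H : Gal(Ω/ℚ) ⧸ Γ → ℤ)
    (hH : ∀ x : Gal(Ω/ℚ) ⧸ Γ, ∃ c : ℂ_[p], c ≠ 0 ∧ ∀ σ (g : Γ),
      Compat (twistEmb ι x.out) σ (g : Gal(Ω/ℚ)) →
      galC σ c * algebraMap ℚ_[p] ℂ_[p] (detG ρ U hU g) =
        algebraMap ℚ_[p] ℂ_[p] (toQ (cyc p Ω (g : Gal(Ω/ℚ))) ^ (-H x)) * c) :
    2 * ∑ x, H x = w * finrank ℚ_[p] U * Fintype.card (Gal(Ω/ℚ) ⧸ Γ) := by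
  classical
  obtain ⟨M, hM, hrel⟩ := exists_det_relation hΓ ι ρ hρ U hU H hH
  obtain ⟨q, m, φ, hq, hqp, hm, hφ, hx⟩ := hpure
  choose hφΓ hP using hx
  obtain ⟨J⟩ := exists_embedding p
  have h1 := sum_of_norms J hM (detG ρ U hU) hq hqp hm hφ hφΓ (hrel _ hφΓ)
    (fun _ => w * finrank ℚ_[p] U) (by
      intro x
      obtain ⟨P, hP0, hPw, hPT⟩ := hP x.out
      have h2 := norm_det J ((ρ ⟨x.out⁻¹ * φ ^ m * x.out, hφΓ _⟩).restrict (hU _)) (q ^ m) w P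
        ⟨hP0, hPw⟩ (by
          ext u
          rw [aeval_restrict, hPT]
          rfl)
      have h3 : detG ρ U hU ⟨x.out⁻¹ * φ ^ m * x.out, hφΓ _⟩ =
        LinearMap.det ((ρ ⟨x.out⁻¹ * φ ^ m * x.out, hφΓ _⟩).restrict (hU _)) := rfl
      rw [h3, h2, ← zpow_natCast, ← zpow_mul]
      congr 1
      ring)
  rw [Finset.sum_const, Finset.card_univ, nsmul_eq_mul] at h1
  linarith

end main

end Pool.Agent.NF
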