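import Mathlib
import Pool.Agent.Lib.Helper90.GSem.Main
import Pool.Agent.Lib.H99.NF.Sum

/-!
# Embeddings, places, and the weights of a stable subspace
-/

namespace Pool.Agent.NF

open NumberField TensorProduct Module Polynomial Pool.Agent.GSem Pool.Agent.PD

section emb

variable {p : ℕ} [hp : Fact p.Prime] {Ω : Type*} [Field Ω] [CharZero Ω]

/-- Two embeddings differ by an automorphism. -/
theorem exists_between [IsAlgClosure ℚ Ω] (ι₁ ι₂ : Ω →+* PadicAlgCl p) :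
    ∃ g : Gal(Ω/ℚ), ∀ x, ι₂ x = ι₁ (g x) := by
  have _ : Algebra.IsAlgebraic ℚ Ω := IsAlgClosure.isAlgebraic
  have _ : IsGalois ℚ Ω := IsAlgClosure.isGalois ℚ Ω
  let _ : Algebra Ω (PadicAlgCl p) := ι₁.toAlgebra
  have hst : IsScalarTower ℚ Ω (PadicAlgCl p) :=
    IsScalarTower.of_algebraMap_eq (fun q => by simp)
  let f : Ω →ₐ[ℚ] PadicAlgCl p := ι₂.toRatAlgHom
  let g : Ω →ₐ[ℚ] Ω := f.restrictNormal Ω
  have hg : Function.Bijective g := Algebra.IsAlgebraic.algHom_bijective g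
  refine ⟨AlgEquiv.ofBijective g hg, fun x => ?_⟩
  exact (AlgHom.restrictNormal_commutes f Ω x).symm

theorem exists_ext_emb (F : IntermediateField ℚ Ω) [IsAlgClosure ℚ Ω] (σ : F →+* PadicAlgCl p) :
    ∃ ι : Ω →+* PadicAlgCl p, ∀ y : F, ι (y : Ω) = σ y := by
  have _ : Algebra.IsAlgebraic ℚ Ω := IsAlgClosure.isAlgebraic
  let _ : Algebra F (PadicAlgCl p) := σ.toAlgebra
  have : Algebra.IsAlgebraic F Ω := Algebra.IsAlgebraic.tower_top (K := ℚ) F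
  let f : Ω →ₐ[F] PadicAlgCl p := IsAlgClosed.lift
  exact ⟨f, fun y => f.commutes y⟩

end emb

section semi

variable {p : ℕ} [hp : Fact p.Prime] {V : Type*} [AddCommGroup V] [Module ℚ_[p] V]

theorem semi_mul (σ τ : Gal(PadicAlgCl p/ℚ_[p])) (S T : V →ₗ[ℚ_[p]] V)
    (x : ℂ_[p] ⊗[ℚ_[p]] V) : semi σ S (semi τ T x) = semi (σ * τ) (S * T) x := by
  induction x using TensorProduct.induction_on with
  | zero => simp
  | add x y hx hy => simp only [map_add, hx, hy]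
  | tmul a v =>
    rw [semi_tmul, semi_tmul, semi_tmul, galC_mul]
    rfl

theorem semi_one (x : ℂ_[p] ⊗[ℚ_[p]] V) : semi 1 (1 : V →ₗ[ℚ_[p]] V) x = x := by
  induction x using TensorProduct.induction_on with
  | zero => simp
  | add x y hx hy => rw [map_add, hx, hy]
  | tmul a v =>
    rw [semi_tmul, galC_one]
    rfl

end semi

section transport

variable {p : ℕ} [hp : Fact p.Prime] {Ω : Type*} [Field Ω] [CharZero Ω] [IsAlgClosed Ω]
  [Normal ℚ Ω]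
variable {Γ : Subgroup Gal(Ω/ℚ)} {V : Type*} [AddCommGroup V] [Module ℚ_[p] V]

/-- **Transport of weights** between embeddings inducing the same place. -/
theorem transport [Γ.FiniteIndex] (ρ : Representation ℚ_[p] Γ V) {n : ℕ} {h : Fin n → ℤ}
    (hinj : Function.Injective h) {ι ι' : Ω →+* PadicAlgCl p}
    {e e' : Basis (Fin n) ℂ_[p] (ℂ_[p] ⊗[ℚ_[p]] V)} (he : IsHTBasisAt ι ρ h e)
    (he' : IsHTBasisAt ι' ρ h e') (τ : Gal(PadicAlgCl p/ℚ_[p])) (γ : Γ)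
    (hι : ∀ x, ι' x = τ (ι ((γ : Gal(Ω/ℚ)) x)))
    (U : Submodule ℚ_[p] V) (hU : ∀ g, ∀ u ∈ U, ρ g u ∈ U) (j : Fin n) (hj : e j ∈ ext U) :
    e' j ∈ ext U := by
  classical
  set x := semi τ (ρ γ⁻¹) (e j) with hx
  have hxU : x ∈ ext U := semi_mem_ext τ (ρ γ⁻¹) (hU _) (e j) hj
  have hx0 : x ≠ 0 := by
    intro h0
    apply e.ne_zero j
    have h1 : semi τ⁻¹ (ρ γ) x = e j := by
      rw [hx, semi_mul, inv_mul_cancel, ← map_mul, mul_inv_cancel, map_one, semi_one]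
    rw [← h1, h0, map_zero]
  have hxs : ∀ σ (g : Γ), Compat ι' σ (g : Gal(Ω/ℚ)) → semi σ (ρ g) x =
      algebraMap ℚ_[p] ℂ_[p] (toQ (cyc p Ω (g : Gal(Ω/ℚ))) ^ (-h j)) • x := by
    intro σ g hg
    have hc : Compat ι (τ⁻¹ * σ * τ) ((γ * g * γ⁻¹ : Γ) : Gal(Ω/ℚ)) := by
      intro z
      have h1 := hg ((γ : Gal(Ω/ℚ))⁻¹ z)
      rw [hι, hι] at h1
      have h2 : (γ : Gal(Ω/ℚ)) ((γ : Gal(Ω/ℚ))⁻¹ z) = z :=
        (γ : Gal(Ω/ℚ)).apply_symm_apply z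
      rw [h2] at h1
      have h3 : ((γ * g * γ⁻¹ : Γ) : Gal(Ω/ℚ)) z =
          (γ : Gal(Ω/ℚ)) ((g : Gal(Ω/ℚ)) ((γ : Gal(Ω/ℚ))⁻¹ z)) := rfl
      rw [h3, AlgEquiv.mul_apply, AlgEquiv.mul_apply, ← h1]
      exact (τ.symm_apply_apply _).symm
    have h1 := he _ _ hc j
    have h2 : cyc p Ω ((γ * g * γ⁻¹ : Γ) : Gal(Ω/ℚ)) = cyc p Ω (g : Gal(Ω/ℚ)) := by
      have h3 : ((γ * g * γ⁻¹ : Γ) : Gal(Ω/ℚ)) =
        ((γ : Gal(Ω/ℚ))⁻¹)⁻¹ * (g : Gal(Ω/ℚ)) * (γ : Gal(Ω/ℚ))⁻¹ := by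
        rw [inv_inv]; rfl
      rw [h3, cyc_conj]
    rw [h2] at h1
    have h4 : semi σ (ρ g) x = semi τ (ρ γ⁻¹) (semi (τ⁻¹ * σ * τ) (ρ (γ * g * γ⁻¹)) (e j)) := by
      rw [hx, semi_mul, semi_mul, ← map_mul, ← map_mul]
      congr 2
      · group
      · group
    rw [h4, h1, semi_smul, galC_algebraMap]
  have hcoord : ∀ i, i ≠ j → e'.repr x i = 0 := by
    intro i hij
    by_contra hi
    obtain ⟨σ, g, hg, hgΓ, hne⟩ := exists_ne_twist_sub ι' Γ (e'.repr x i) hi (h i - h j)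
      (sub_ne_zero.2 fun hh => hij (hinj hh))
    apply hne
    have h1 := repr_semi e' σ (ρ ⟨g, hgΓ⟩) _ (he' σ ⟨g, hgΓ⟩ hg) x i
    rw [hxs σ ⟨g, hgΓ⟩ hg, map_smul, Finsupp.smul_apply, smul_eq_mul] at h1
    change _ = galC σ (e'.repr x i) * algebraMap ℚ_[p] ℂ_[p] (toQ (cyc p Ω g) ^ (-h i)) at h1
    have hχ0 : toQ (cyc p Ω g) ≠ 0 := toQ_ne_zero _
    have e1 : algebraMap ℚ_[p] ℂ_[p] (toQ (cyc p Ω g) ^ (h i - h j)) *
        algebraMap ℚ_[p] ℂ_[p] (toQ (cyc p Ω g) ^ (-h i)) =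
        algebraMap ℚ_[p] ℂ_[p] (toQ (cyc p Ω g) ^ (-h j)) := by
      rw [← map_mul, ← zpow_add₀ hχ0]
      congr 2
      ring
    have e2 : algebraMap ℚ_[p] ℂ_[p] (toQ (cyc p Ω g) ^ (-h i)) ≠ 0 := by
      rw [Ne, map_eq_zero]
      exact zpow_ne_zero _ hχ0
    apply mul_right_cancel₀ e2
    rw [← h1]
    change algebraMap ℚ_[p] ℂ_[p] (toQ (cyc p Ω g) ^ (-h j)) * e'.repr x i = _
    rw [← e1]
    ring
  have hxe : x = e'.repr x j • e' j := by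
    conv_lhs => rw [← e'.sum_repr x]
    rw [Finset.sum_eq_single j]
    · intro i _ hij
      rw [hcoord i hij, zero_smul]
    · intro h0; exact absurd (Finset.mem_univ j) h0
  have hj0 : e'.repr x j ≠ 0 := by
    intro h0
    rw [h0, zero_smul] at hxe
    exact hx0 hxe
  have h2 : (e'.repr x j)⁻¹ • x = e' j := (inv_smul_eq_iff₀ hj0).2 hxe
  rw [← h2]
  exact (ext U).smul_mem _ hxU

/-- The weights of an isotropic stable subspace contain no opposite pair. -/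
theorem no_opposite_at [FiniteDimensional ℚ_[p] V] [Γ.FiniteIndex] (ι : Ω →+* PadicAlgCl p)
    (ρ : Representation ℚ_[p] Γ V)
    {n : ℕ} (h : Fin n → ℤ) (hinj : Function.Injective h)
    (e : Basis (Fin n) ℂ_[p] (ℂ_[p] ⊗[ℚ_[p]] V)) (he : IsHTBasisAt ι ρ h e) (w : ℤ)
    (B : V →ₗ[ℚ_[p]] V →ₗ[ℚ_[p]] ℚ_[p]) (hB : IsPol ρ w B)
    (U : Submodule ℚ_[p] V) (hiso : ∀ x ∈ U, ∀ y ∈ U, B x y = 0)
    (i j : Fin n) (hi : e i ∈ ext U) (hj : e j ∈ ext U) : h i + h j ≠ w := by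
  intro hij
  obtain ⟨k, hk⟩ : ∃ k, pairC B (e i) (e k) ≠ 0 := by
    by_contra hcon
    push Not at hcon
    have h1 : pairC B (e i) = 0 := e.ext fun k => by rw [hcon k, LinearMap.zero_apply]
    have h2 := eq_zero_of_pairC B hB.1 (e i) (fun y => by rw [h1, LinearMap.zero_apply])
    exact e.ne_zero i h2
  have hw : h i + h k = w := by
    by_contra hne
    obtain ⟨σ, g, hc, hgΓ, hne'⟩ := exists_ne_twist_sub ι Γ (pairC B (e i) (e k)) hk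
      (w - (h i + h k)) (sub_ne_zero.2 (Ne.symm hne))
    apply hne'
    have h1 := pairC_semi B σ (ρ ⟨g, hgΓ⟩) _ (hB.2 ⟨g, hgΓ⟩) (e i) (e k)
    rw [he σ ⟨g, hgΓ⟩ hc i, he σ ⟨g, hgΓ⟩ hc k, map_smul, map_smul, LinearMap.smul_apply,
      smul_eq_mul, smul_eq_mul] at h1
    change algebraMap ℚ_[p] ℂ_[p] (toQ (cyc p Ω g) ^ (-h k)) *
      (algebraMap ℚ_[p] ℂ_[p] (toQ (cyc p Ω g) ^ (-h i)) * pairC B (e i) (e k)) =
      algebraMap ℚ_[p] ℂ_[p] (toQ (cyc p Ω g) ^ (-w)) * galC σ (pairC B (e i) (e k)) at h1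
    have hχ0 : toQ (cyc p Ω g) ≠ 0 := toQ_ne_zero _
    have e1 : algebraMap ℚ_[p] ℂ_[p] (toQ (cyc p Ω g) ^ (w - (h i + h k))) *
        algebraMap ℚ_[p] ℂ_[p] (toQ (cyc p Ω g) ^ (-w)) =
        algebraMap ℚ_[p] ℂ_[p] (toQ (cyc p Ω g) ^ (-h i)) *
        algebraMap ℚ_[p] ℂ_[p] (toQ (cyc p Ω g) ^ (-h k)) := by
      rw [← map_mul, ← map_mul, ← zpow_add₀ hχ0, ← zpow_add₀ hχ0]
      congr 2
      ring
    have e2 : algebraMap ℚ_[p] ℂ_[p] (toQ (cyc p Ω g) ^ (-w)) ≠ 0 := by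
      rw [Ne, map_eq_zero]
      exact zpow_ne_zero _ hχ0
    apply mul_left_cancel₀ e2
    rw [← h1]
    linear_combination (pairC B (e i) (e k)) * (-e1)
  have hkj : k = j := hinj (by omega)
  rw [hkj] at hk
  exact hk (pairC_eq_zero B U hiso _ _ hi hj)

end transport

section bij

variable {p : ℕ} [hp : Fact p.Prime] {Ω : Type*} [Field Ω] [CharZero Ω] [IsAlgClosure ℚ Ω]

/-- The embedding of `F` attached to a coset. -/
noncomputable def embOf (F : IntermediateField ℚ Ω) (ι : Ω →+* PadicAlgCl p)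
    (x : Gal(Ω/ℚ) ⧸ F.fixingSubgroup) : F →+* PadicAlgCl p :=
  (twistEmb ι x.out).comp (algebraMap F Ω)

theorem embOf_bijective (F : IntermediateField ℚ Ω) (ι : Ω →+* PadicAlgCl p) :
    Function.Bijective (embOf F ι) := by
  constructor
  · intro x y hxy
    rw [← QuotientGroup.out_eq' x, ← QuotientGroup.out_eq' y, QuotientGroup.eq,
      IntermediateField.mem_fixingSubgroup_iff]
    intro z hz
    have h1 := DFunLike.congr_fun hxy (⟨z, hz⟩ : F)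
    have h2 : ι (x.out z) = ι (y.out z) := h1
    have h3 := ι.injective h2
    rw [AlgEquiv.mul_apply, ← h3]
    exact x.out.symm_apply_apply z
  · intro σ
    obtain ⟨ι', hι'⟩ := exists_ext_emb F σ
    obtain ⟨g, hg⟩ := exists_between ι ι'
    refine ⟨(g : Gal(Ω/ℚ) ⧸ F.fixingSubgroup), ?_⟩
    ext y
    change ι ((g : Gal(Ω/ℚ) ⧸ F.fixingSubgroup).out (y : Ω)) = σ y
    obtain ⟨γ, hγ⟩ := QuotientGroup.mk_out_eq_mul F.fixingSubgroup g
    rw [hγ, AlgEquiv.mul_apply]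
    have h1 : (γ : Gal(Ω/ℚ)) (y : Ω) = y :=
      (IntermediateField.mem_fixingSubgroup_iff F (γ : Gal(Ω/ℚ))).1 γ.2 y y.2
    rw [h1, ← hg, hι']

end bij

end Pool.Agent.NF
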