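import Mathlib
import Pool.Agent.Lib.H99.NF.Places

/-!
# Distinct Hodge–Tate weights over a number field
-/

namespace Pool.Agent.NF

open NumberField TensorProduct Module Polynomial Pool.Agent.GSem Pool.Agent.PD

section generic

variable {K G V : Type*} [Field K] [Group G] [AddCommGroup V] [Module K V]
  [FiniteDimensional K V]

omit [FiniteDimensional K V] in
theorem perp_stableG (ρ : Representation K G V) (B : V →ₗ[K] V →ₗ[K] K) (μ : G → K)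
    (hBρ : ∀ g x y, B (ρ g x) (ρ g y) = μ g * B x y)
    (W : Submodule K V) (hW : ∀ g, ∀ x ∈ W, ρ g x ∈ W) :
    ∀ g, ∀ x ∈ perp B W, ρ g x ∈ perp B W := by
  intro g y hy x hx
  have h1 := hBρ g (ρ g⁻¹ x) y
  have h2 : ρ g (ρ g⁻¹ x) = x := by
    have : ρ g (ρ g⁻¹ x) = (ρ g * ρ g⁻¹) x := rfl
    rw [this, ← map_mul, mul_inv_cancel, map_one]
    rfl
  rw [h2, hy _ (hW g⁻¹ x hx), mul_zero] at h1
  exact h1

end generic

section main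

variable {p : ℕ} [hp : Fact p.Prime] {Ω : Type*} [Field Ω] [CharZero Ω]
variable {Γ : Subgroup Gal(Ω/ℚ)} {V : Type*} [AddCommGroup V] [Module ℚ_[p] V]
  [FiniteDimensional ℚ_[p] V]

theorem semisimple_of_isotropicF (ρ : Representation ℚ_[p] Γ V) (w : ℤ)
    (B : V →ₗ[ℚ_[p]] V →ₗ[ℚ_[p]] ℚ_[p]) (hB : IsPol ρ w B)
    (h : ∀ U : Submodule ℚ_[p] V, (∀ g, ∀ x ∈ U, ρ g x ∈ U) →
      (∀ x ∈ U, ∀ y ∈ U, B x y = 0) → U = ⊥) : IsSemisimpleRep ρ := by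
  intro W hW
  have hWp := perp_stableG ρ B (fun g => toQ (cyc p Ω (g : Gal(Ω/ℚ))) ^ (-w)) hB.2 W hW
  refine ⟨perp B W, hWp, isCompl_perp B W ?_⟩
  apply h
  · intro g x hx
    exact ⟨hW g x hx.1, hWp g x hx.2⟩
  · intro x hx y hy
    exact hy.2 x hx.1

/-- **Weights of a stable subspace over a number field.** -/
theorem exists_family [IsAlgClosure ℚ Ω] (F : IntermediateField ℚ Ω) [NumberField F]
    (ρ : Representation ℚ_[p] F.fixingSubgroup V) (hρ : IsContRep ρ) {n : ℕ} (h : Fin n → ℤ)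
    (hinj : Function.Injective h)
    (hHT : ∀ ι : Ω →+* PadicAlgCl p, ∃ e : Basis (Fin n) ℂ_[p] (ℂ_[p] ⊗[ℚ_[p]] V),
      IsHTBasisAt ι ρ h e)
    (w : ℤ) (hpure : IsPureAbove ρ w) (U : Submodule ℚ_[p] V) (hU : ∀ g, ∀ u ∈ U, ρ g u ∈ U) :
    ∃ J : (F →+* PadicAlgCl p) → Finset (Fin n),
      (∀ σ, (J σ).card = finrank ℚ_[p] U) ∧
      (∀ σ (τ : Gal(PadicAlgCl p/ℚ_[p])),
        J (((τ : PadicAlgCl p ≃+* PadicAlgCl p) : PadicAlgCl p →+* PadicAlgCl p).comp σ) = J σ) ∧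
      (∀ σ, ∀ B : V →ₗ[ℚ_[p]] V →ₗ[ℚ_[p]] ℚ_[p], IsPol ρ w B →
        (∀ x ∈ U, ∀ y ∈ U, B x y = 0) → ∀ i ∈ J σ, ∀ j ∈ J σ, h i + h j ≠ w) ∧
      ∑ σ, ∑ j ∈ J σ, (2 * h j - w) = 0 := by
  classical
  have _ : IsAlgClosed Ω := IsAlgClosure.isAlgClosed ℚ
  have _ : Algebra.IsAlgebraic ℚ Ω := IsAlgClosure.isAlgebraic
  have _ : IsGalois ℚ Ω := IsAlgClosure.isGalois ℚ Ω
  have hopen : IsOpen (F.fixingSubgroup : Set Gal(Ω/ℚ)) :=
    IntermediateField.fixingSubgroup_isOpen F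
  have hfinq : Finite (Gal(Ω/ℚ) ⧸ F.fixingSubgroup) := Subgroup.quotient_finite_of_isOpen _ hopen
  have hfi : F.fixingSubgroup.FiniteIndex := Subgroup.finiteIndex_of_finite_quotient
  let _ : Fintype (Gal(Ω/ℚ) ⧸ F.fixingSubgroup) := Fintype.ofFinite _
  choose e he using hHT
  choose E hE using exists_ext_emb (p := p) F
  let Jι : (Ω →+* PadicAlgCl p) → Finset (Fin n) := fun ι =>
    Finset.univ.filter (fun j => e ι j ∈ ext U)
  have hJι : ∀ ι j, j ∈ Jι ι ↔ e ι j ∈ ext U := by intro ι j; simp [Jι]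
  -- invariance
  have key : ∀ (ι ι' : Ω →+* PadicAlgCl p) (τ : Gal(PadicAlgCl p/ℚ_[p])),
      (∀ y : F, ι' (y : Ω) = τ (ι (y : Ω))) → Jι ι ⊆ Jι ι' := by
    intro ι ι' τ hιι'
    let ι₁ : Ω →+* PadicAlgCl p :=
      (((τ : PadicAlgCl p ≃+* PadicAlgCl p) : PadicAlgCl p →+* PadicAlgCl p)).comp ι
    obtain ⟨g, hg⟩ := exists_between ι₁ ι'
    have hgF : g ∈ F.fixingSubgroup := by
      rw [IntermediateField.mem_fixingSubgroup_iff]
      intro y hy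
      apply ι₁.injective
      rw [← hg]
      exact hιι' ⟨y, hy⟩
    intro j hj
    rw [hJι] at hj ⊢
    exact transport ρ hinj (he ι) (he ι') τ ⟨g, hgF⟩ (fun x => hg x) U hU j hj
  have key' : ∀ (ι ι' : Ω →+* PadicAlgCl p) (τ : Gal(PadicAlgCl p/ℚ_[p])),
      (∀ y : F, ι' (y : Ω) = τ (ι (y : Ω))) → Jι ι = Jι ι' := by
    intro ι ι' τ hιι'
    refine Finset.Subset.antisymm (key ι ι' τ hιι') (key ι' ι τ⁻¹ fun y => ?_)
    rw [hιι']
    exact (τ.symm_apply_apply _).symm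
  -- determinants
  have hdet : ∀ ι, (Jι ι).card = finrank ℚ_[p] U ∧ ∃ c : ℂ_[p], c ≠ 0 ∧
      ∀ σ (g : F.fixingSubgroup), Compat ι σ (g : Gal(Ω/ℚ)) →
      galC σ c * algebraMap ℚ_[p] ℂ_[p] (detG ρ U hU g) =
        algebraMap ℚ_[p] ℂ_[p] (toQ (cyc p Ω (g : Gal(Ω/ℚ))) ^ (-∑ j ∈ Jι ι, h j)) * c := by
    intro ι
    have hUR : ∀ σ T u, relAt ι ρ σ T u → ∀ x ∈ U, T x ∈ U := by
      rintro σ T u ⟨g, -, rfl, -⟩
      exact hU g
    obtain ⟨h1, c, hc, h2⟩ := exists_det_distinct (tateRel_relAt ι ρ) h hinj (e ι)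
      (basisRel_of_HT (he ι)) U hUR (Jι ι) (hJι ι)
    exact ⟨h1, c, hc, fun σ g hg => h2 σ (ρ g) _ ⟨g, hg, rfl, rfl⟩⟩
  obtain ⟨ι₀⟩ : Nonempty (Ω →+* PadicAlgCl p) := by
    obtain ⟨f⟩ : Nonempty (Ω →ₐ[ℚ] PadicAlgCl p) := ⟨IsAlgClosed.lift⟩
    exact ⟨f⟩
  have hsum := sum_weights hopen ι₀ ρ hρ w hpure U hU
    (fun x => ∑ j ∈ Jι (twistEmb ι₀ x.out), h j) (fun x => (hdet _).2)
  refine ⟨fun σ => Jι (E σ), fun σ => (hdet _).1, ?_, ?_, ?_⟩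
  · intro σ τ
    symm
    refine key' _ _ τ fun y => ?_
    rw [hE, hE]
    rfl
  · intro σ B hB hiso i hi j hj
    exact no_opposite_at (E σ) ρ h hinj (e _) (he _) w B hB U hiso i j ((hJι _ _).1 hi)
      ((hJι _ _).1 hj)
  · have hbij := embOf_bijective F ι₀
    have h1 : ∀ x : Gal(Ω/ℚ) ⧸ F.fixingSubgroup,
        Jι (E (embOf F ι₀ x)) = Jι (twistEmb ι₀ x.out) := by
      intro x
      symm
      refine key' _ _ 1 fun y => ?_
      rw [hE]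
      rfl
    have h2 : ∑ σ, ∑ j ∈ Jι (E σ), (2 * h j - w) =
        ∑ x : Gal(Ω/ℚ) ⧸ F.fixingSubgroup, ∑ j ∈ Jι (twistEmb ι₀ x.out), (2 * h j - w) := by
      refine (Fintype.sum_bijective (embOf F ι₀) hbij _ _ fun x => ?_).symm
      rw [h1]
    rw [h2]
    have h3 : ∀ x : Gal(Ω/ℚ) ⧸ F.fixingSubgroup, ∑ j ∈ Jι (twistEmb ι₀ x.out), (2 * h j - w) =
        2 * ∑ j ∈ Jι (twistEmb ι₀ x.out), h j - w * finrank ℚ_[p] U := by
      intro x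
      rw [Finset.sum_sub_distrib, ← Finset.mul_sum, Finset.sum_const, (hdet _).1, nsmul_eq_mul]
      ring
    rw [Finset.sum_congr rfl fun x _ => h3 x, Finset.sum_sub_distrib, ← Finset.mul_sum, hsum,
      Finset.sum_const, Finset.card_univ, nsmul_eq_mul]
    ring

/-- **Criterion.** -/
theorem semisimple_criterionF [IsAlgClosure ℚ Ω] (F : IntermediateField ℚ Ω) [NumberField F]
    (ρ : Representation ℚ_[p] F.fixingSubgroup V) (hρ : IsContRep ρ) {n : ℕ} (h : Fin n → ℤ)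
    (hinj : Function.Injective h)
    (hHT : ∀ ι : Ω →+* PadicAlgCl p, ∃ e : Basis (Fin n) ℂ_[p] (ℂ_[p] ⊗[ℚ_[p]] V),
      IsHTBasisAt ι ρ h e)
    (w : ℤ) (B : V →ₗ[ℚ_[p]] V →ₗ[ℚ_[p]] ℚ_[p]) (hB : IsPol ρ w B)
    (hpure : IsPureAbove ρ w) (c : F.fixingSubgroup) (hc : c * c = 1)
    (hcond : ∀ (r : ℕ) (J : (F →+* PadicAlgCl p) → Finset (Fin n)), 0 < r → 2 * r ≤ n →
      (∀ σ, (J σ).card = r) →
      (∀ σ (τ : Gal(PadicAlgCl p/ℚ_[p])),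
        J (((τ : PadicAlgCl p ≃+* PadicAlgCl p) : PadicAlgCl p →+* PadicAlgCl p).comp σ) = J σ) →
      (∀ σ, ∀ i ∈ J σ, ∀ j ∈ J σ, h i + h j ≠ w) →
      ∑ σ, ∑ j ∈ J σ, (2 * h j - w) = 0 →
      Even w ∧ finrank ℚ_[p] (LinearMap.ker (ρ c - LinearMap.id)) / 2 +
        finrank ℚ_[p] (LinearMap.ker (ρ c + LinearMap.id)) / 2 < r) :
    IsSemisimpleRep ρ := by
  apply semisimple_of_isotropicF ρ w B hB
  intro U hU hiso
  obtain ⟨J, hJcard, hJinv, hJop, hJsum⟩ := exists_family F ρ hρ h hinj hHT w hpure U hU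
  by_contra hU0
  have hdim : finrank ℚ_[p] V = n := by
    have _ : IsAlgClosed Ω := IsAlgClosure.isAlgClosed ℚ
    have _ : Algebra.IsAlgebraic ℚ Ω := IsAlgClosure.isAlgebraic
    obtain ⟨f⟩ : Nonempty (Ω →ₐ[ℚ] PadicAlgCl p) := ⟨IsAlgClosed.lift⟩
    obtain ⟨e, -⟩ := hHT f
    have h1 : finrank ℂ_[p] (ℂ_[p] ⊗[ℚ_[p]] V) = n := by
      rw [finrank_eq_card_basis e, Fintype.card_fin]
    rwa [finrank_baseChange] at h1
  have hpos : 0 < finrank ℚ_[p] U := by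
    rw [Nat.pos_iff_ne_zero]
    intro h0
    exact hU0 (Submodule.finrank_eq_zero.1 h0)
  have h2n : 2 * finrank ℚ_[p] U ≤ n := by
    have h1 := isotropic_bound B ⊤ U le_top hiso (fun x _ hx => hB.1 x (fun y => hx y trivial))
    rwa [finrank_top, hdim] at h1
  obtain ⟨hw, hlt⟩ := hcond _ J hpos h2n hJcard hJinv (fun σ => hJop σ B hB hiso) hJsum
  have hχ : toQ (cyc p Ω (c : Gal(Ω/ℚ))) ^ (-w) = 1 := by
    obtain ⟨m, hm⟩ := hw
    have h1 : toQ (cyc p Ω (c : Gal(Ω/ℚ))) * toQ (cyc p Ω (c : Gal(Ω/ℚ))) = 1 := by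
      rw [← map_mul, ← map_mul, ← Subgroup.coe_mul, hc, Subgroup.coe_one, map_one, map_one]
    have h2 : (-w) = 2 * (-m) := by omega
    rw [h2, zpow_mul, zpow_ofNat, pow_two, h1, one_zpow]
  have hT : ∀ x, ρ c (ρ c x) = x := by
    intro x
    have : ρ c (ρ c x) = (ρ c * ρ c) x := rfl
    rw [this, ← map_mul, hc, map_one]
    rfl
  have h3 := involution_bound B hB.1 (ρ c) hT (fun x y => by rw [hB.2, hχ, one_mul]) U (hU c) hiso
  omega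

end main

end Pool.Agent.NF
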