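import Mathlib
import Pool.Agent.Lib.H99.NF.Main1

/-!
# Distinct Hodge–Tate weights over a number field: special cases
-/

namespace Pool.Agent.NF

open NumberField TensorProduct Module Polynomial Pool.Agent.GSem Pool.Agent.PD

section symm

variable {p : ℕ} [hp : Fact p.Prime] {Ω : Type*} [Field Ω] [CharZero Ω] [IsAlgClosed Ω]
  [Normal ℚ Ω]
variable {Γ : Subgroup Gal(Ω/ℚ)} {V : Type*} [AddCommGroup V] [Module ℚ_[p] V]

/-- The weights of a polarised representation are symmetric. -/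
theorem weight_symm_at [FiniteDimensional ℚ_[p] V] [Γ.FiniteIndex] (ι : Ω →+* PadicAlgCl p)
    (ρ : Representation ℚ_[p] Γ V) {n : ℕ} (h : Fin n → ℤ)
    (e : Basis (Fin n) ℂ_[p] (ℂ_[p] ⊗[ℚ_[p]] V)) (he : IsHTBasisAt ι ρ h e) (w : ℤ)
    (B : V →ₗ[ℚ_[p]] V →ₗ[ℚ_[p]] ℚ_[p]) (hB : IsPol ρ w B) (i : Fin n) :
    ∃ j, h i + h j = w := by
  obtain ⟨k, hk⟩ : ∃ k, pairC B (e i) (e k) ≠ 0 := by
    by_contra hcon
    push Not at hcon
    have h1 : pairC B (e i) = 0 := e.ext fun k => by rw [hcon k, LinearMap.zero_apply]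
    have h2 := eq_zero_of_pairC B hB.1 (e i) (fun y => by rw [h1, LinearMap.zero_apply])
    exact e.ne_zero i h2
  refine ⟨k, ?_⟩
  by_contra hne
  obtain ⟨σ, g, hc, hgΓ, hne'⟩ := exists_ne_twist_sub ι Γ (pairC B (e i) (e k)) hk
    (w - (h i + h k)) (sub_ne_zero.2 (Ne.symm hne))
  apply hne'
  have h1 := pairC_semi B σ (ρ ⟨g, hgΓ⟩) _ (hB.2 ⟨g, hgΓ⟩) (e i) (e k)
  rw [he σ ⟨g, hgΓ⟩ hc i, he σ ⟨g, hgΓ⟩ hc k, map_smul, map_smul, LinearMap.smul_apply,
    smul_eq_mul, smul_eq_mul] at h1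
  change algebraMap ℚ_[p] ℂ_[p] (toQ (cyc p Ω g) ^ (-h k)) *
    (algebraMap ℚ_[p] ℂ_[p] (toQ (cyc p Ω g) ^ (-h i)) * pairC B (e i) (e k)) =
    algebraMap ℚ_[p] ℂ_[p] (toQ (cyc p Ω g) ^ (-w)) * galC σ (pairC B (e i) (e k)) at h1
  have hχ0 : toQ (cyc p Ω g) ≠ 0 := toQ_ne_zero _
  have e1 : algebraMap ℚ_[p] ℂ_[p] (toQ (cyc p Ω g) ^ (w - (h i + h k))) *
      algebraMap ℚ_[p] ℂ_[p] (toQ (cyc p Ω g) ^ (-w)) =
      algebraMap ℚ_[p] ℂ_[p] (toQ (cyc p Ω g) ^ (-h i)) *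
      algebraMap ℚ_[p] ℂ_[p] (toQ (cyc p Ω g) ^ (-h k)) := by
    rw [← map_mul, ← map_mul, ← zpow_add₀ hχ0, ← zpow_add₀ hχ0]
    congr 2
    ring
  have e2 : algebraMap ℚ_[p] ℂ_[p] (toQ (cyc p Ω g) ^ (-w)) ≠ 0 := by
    rw [Ne, map_eq_zero]
    exact zpow_ne_zero _ hχ0
  apply mul_left_cancel₀ e2
  rw [← h1]
  linear_combination (pairC B (e i) (e k)) * (-e1)

end symm

section comb

variable {A : Type*} [Fintype A]

theorem sum_ne_zero_of_pm (hodd : Odd (Fintype.card A)) (f : A → ℤ) (δ : ℤ) (hδ : δ ≠ 0)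
    (hf : ∀ x, f x = δ ∨ f x = -δ) : ∑ x, f x ≠ 0 := by
  classical
  have h1 : ∀ x, ∃ ε : ℤ, f x = ε * δ ∧ Odd ε := by
    intro x
    rcases hf x with h | h
    · exact ⟨1, by rw [h, one_mul], odd_one⟩
    · exact ⟨-1, by rw [h]; ring, ⟨-1, by norm_num⟩⟩
  choose ε hε hεo using h1
  have h2 : ∑ x, f x = (∑ x, ε x) * δ := by
    rw [Finset.sum_mul]
    exact Finset.sum_congr rfl fun x _ => hε x
  rw [h2]
  refine mul_ne_zero ?_ hδ
  have h3 : Odd (∑ x, ε x) := by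
    have h4 : ∀ s : Finset A, Even (∑ x ∈ s, (ε x - 1)) := by
      intro s
      induction s using Finset.induction_on with
      | empty => simp
      | insert a s ha ih =>
        rw [Finset.sum_insert ha]
        exact ((hεo a).sub_odd odd_one).add ih
    have h5 := h4 Finset.univ
    rw [Finset.sum_sub_distrib, Finset.sum_const, Finset.card_univ, nsmul_eq_mul, mul_one] at h5
    have h6 : Odd ((Fintype.card A : ℕ) : ℤ) := by exact_mod_cast hodd
    have h7 : ∑ x, ε x = (∑ x, ε x - (Fintype.card A : ℤ)) + (Fintype.card A : ℤ) := by ring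
    rw [h7]
    exact h5.add_odd h6
  intro h0
  rw [h0] at h3
  exact absurd h3 (by decide)

/-- No centred families of single weights if there are at most three weights and an odd number of
embeddings. -/
theorem no_family_three (hodd : Odd (Fintype.card A)) {n : ℕ} (hn : n ≤ 3) (h : Fin n → ℤ)
    (w : ℤ) (hinj : Function.Injective h) (hsymm : ∀ i, ∃ j, h i + h j = w)
    (J : A → Finset (Fin n)) (hJ : ∀ x, (J x).card = 1)
    (hop : ∀ x, ∀ i ∈ J x, ∀ j ∈ J x, h i + h j ≠ w)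
    (hsum : ∑ x, ∑ j ∈ J x, (2 * h j - w) = 0) : False := by
  classical
  have h1 : ∀ x, ∃ i, J x = {i} := fun x => Finset.card_eq_one.1 (hJ x)
  choose i hi using h1
  choose i' hi' using hsymm
  have h2 : ∀ x, 2 * h (i x) - w ≠ 0 := by
    intro x h0
    exact hop x (i x) (by rw [hi]; simp) (i x) (by rw [hi]; simp) (by omega)
  obtain ⟨x₀⟩ : Nonempty A := by
    rw [← Fintype.card_pos_iff]
    exact hodd.pos
  refine sum_ne_zero_of_pm hodd (fun x => ∑ j ∈ J x, (2 * h j - w)) (2 * h (i x₀) - w) (h2 x₀)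
    ?_ hsum
  intro x
  simp only [hi, Finset.sum_singleton]
  by_cases e1 : i x = i x₀
  · left; rw [e1]
  by_cases e2 : i x = i' (i x₀)
  · right
    rw [e2]
    have := hi' (i x₀)
    omega
  exfalso
  -- four distinct elements
  have a1 := hi' (i x₀)
  have a2 := hi' (i x)
  have b1 := h2 x₀
  have b2 := h2 x
  have n1 : i x₀ ≠ i' (i x₀) := by
    intro h0; rw [← h0] at a1; omega
  have n2 : i x ≠ i' (i x) := by
    intro h0; rw [← h0] at a2; omega
  have n3 : i' (i x) ≠ i x₀ := by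
    intro h0
    apply e2
    apply hinj
    rw [h0] at a2
    omega
  have n4 : i' (i x) ≠ i' (i x₀) := by
    intro h0
    apply e1
    apply hinj
    rw [h0] at a2
    omega
  have hc : ({i x₀, i' (i x₀), i x, i' (i x)} : Finset (Fin n)).card = 4 := by
    rw [Finset.card_insert_of_notMem, Finset.card_insert_of_notMem, Finset.card_insert_of_notMem,
      Finset.card_singleton]
    · simpa using n2
    · simp only [Finset.mem_insert, Finset.mem_singleton, not_or]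
      exact ⟨fun h => e2 h.symm, fun h => n4 h.symm⟩
    · simp only [Finset.mem_insert, Finset.mem_singleton, not_or]
      exact ⟨n1, fun h => e1 h.symm, fun h => n3 h.symm⟩
  have := Finset.card_le_univ ({i x₀, i' (i x₀), i x, i' (i x)} : Finset (Fin n))
  rw [hc, Fintype.card_fin] at this
  omega

/-- Centred constant families have at least three members, and `w` is even if there are three. -/
theorem const_family [Nonempty A] {n : ℕ} {w : ℤ} (h : Fin n → ℤ) (r : ℕ) (hr : 0 < r)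
    (J : A → Finset (Fin n)) (hJ : ∀ x, (J x).card = r) (hconst : ∀ x y, J x = J y)
    (hop : ∀ x, ∀ i ∈ J x, ∀ j ∈ J x, h i + h j ≠ w)
    (hsum : ∑ x, ∑ j ∈ J x, (2 * h j - w) = 0) : 3 ≤ r ∧ (r = 3 → Even w) := by
  classical
  obtain ⟨x₀⟩ := ‹Nonempty A›
  rw [Finset.sum_congr rfl fun x _ => by rw [hconst x x₀], Finset.sum_const, Finset.card_univ,
    nsmul_eq_mul] at hsum
  have hA : ((Fintype.card A : ℕ) : ℤ) ≠ 0 := by
    have : 0 < Fintype.card A := Fintype.card_pos_iff.2 ⟨x₀⟩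
    exact_mod_cast this.ne'
  have hs := (mul_eq_zero.1 hsum).resolve_left hA
  have hc := hJ x₀
  have hp := hop x₀
  generalize J x₀ = T at hs hc hp
  have h1 : r ≠ 1 := by
    intro h1
    rw [h1] at hc
    obtain ⟨i, rfl⟩ := Finset.card_eq_one.1 hc
    rw [Finset.sum_singleton] at hs
    exact absurd (by omega) (hp i (Finset.mem_singleton_self i) i (Finset.mem_singleton_self i))
  have h2 : r ≠ 2 := by
    intro h1
    rw [h1] at hc
    obtain ⟨i, j, hij, rfl⟩ := Finset.card_eq_two.1 hc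
    rw [Finset.sum_pair hij] at hs
    exact absurd (by omega) (hp i (by simp) j (by simp))
  refine ⟨by omega, fun h3 => ?_⟩
  rw [h3] at hc
  rw [Finset.sum_sub_distrib, ← Finset.mul_sum, Finset.sum_const, hc] at hs
  simp only [nsmul_eq_mul] at hs
  push_cast at hs
  rcases Int.even_or_odd w with he | ⟨m, hm⟩
  · exact he
  · omega

end comb

section main

variable {p : ℕ} [hp : Fact p.Prime] {Ω : Type*} [Field Ω] [CharZero Ω]
variable {V : Type*} [AddCommGroup V] [Module ℚ_[p] V] [FiniteDimensional ℚ_[p] V]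

theorem semisimple_of_one_place [IsAlgClosure ℚ Ω] (F : IntermediateField ℚ Ω) [NumberField F]
    (ρ : Representation ℚ_[p] F.fixingSubgroup V) (hρ : IsContRep ρ) {n : ℕ} (h : Fin n → ℤ)
    (hinj : Function.Injective h)
    (hHT : ∀ ι : Ω →+* PadicAlgCl p, ∃ e : Basis (Fin n) ℂ_[p] (ℂ_[p] ⊗[ℚ_[p]] V),
      IsHTBasisAt ι ρ h e)
    (w : ℤ) (B : V →ₗ[ℚ_[p]] V →ₗ[ℚ_[p]] ℚ_[p]) (hB : IsPol ρ w B)
    (hpure : IsPureAbove ρ w) (c : F.fixingSubgroup) (hc : c * c = 1)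
    (hplace : ∀ σ σ' : F →+* PadicAlgCl p, ∃ τ : Gal(PadicAlgCl p/ℚ_[p]), ∀ y, σ' y = τ (σ y))
    (hn : n ≤ 5 ∨ n = 6 ∧
      (Odd w ∨ Odd (finrank ℚ_[p] (LinearMap.ker (ρ c - LinearMap.id))))) :
    IsSemisimpleRep ρ := by
  have _ : IsAlgClosed Ω := IsAlgClosure.isAlgClosed ℚ
  have _ : Algebra.IsAlgebraic ℚ Ω := IsAlgClosure.isAlgebraic
  obtain ⟨f⟩ : Nonempty (Ω →ₐ[ℚ] PadicAlgCl p) := ⟨IsAlgClosed.lift⟩
  have hne : Nonempty (F →+* PadicAlgCl p) := ⟨(f : Ω →+* PadicAlgCl p).comp (algebraMap F Ω)⟩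
  have hdim : finrank ℚ_[p] V = n := by
    obtain ⟨e, -⟩ := hHT f
    have h1 : finrank ℂ_[p] (ℂ_[p] ⊗[ℚ_[p]] V) = n := by
      rw [finrank_eq_card_basis e, Fintype.card_fin]
    rwa [finrank_baseChange] at h1
  have hab := eigenspaces_le (ρ c)
  refine semisimple_criterionF F ρ hρ h hinj hHT w B hB hpure c hc ?_
  intro r J hr h2r hJ hinv hop hsum
  obtain ⟨h3, h4⟩ := const_family h r hr J hJ (fun σ σ' => by
    obtain ⟨τ, hτ⟩ := hplace σ σ'
    rw [← hinv σ τ]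
    congr 1
    exact (RingHom.ext hτ).symm) hop hsum
  rcases hn with hn | ⟨hn, hn'⟩
  · omega
  · have hr3 : r = 3 := by omega
    have hw := h4 hr3
    refine ⟨hw, ?_⟩
    rcases hn' with hn' | ⟨m, hm⟩
    · exact absurd hw (Int.not_even_iff_odd.2 hn')
    · omega

theorem semisimple_of_odd_degree [IsAlgClosure ℚ Ω] (F : IntermediateField ℚ Ω) [NumberField F]
    (ρ : Representation ℚ_[p] F.fixingSubgroup V) (hρ : IsContRep ρ) {n : ℕ} (h : Fin n → ℤ)
    (hinj : Function.Injective h)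
    (hHT : ∀ ι : Ω →+* PadicAlgCl p, ∃ e : Basis (Fin n) ℂ_[p] (ℂ_[p] ⊗[ℚ_[p]] V),
      IsHTBasisAt ι ρ h e)
    (w : ℤ) (B : V →ₗ[ℚ_[p]] V →ₗ[ℚ_[p]] ℚ_[p]) (hB : IsPol ρ w B)
    (hpure : IsPureAbove ρ w) (hodd : Odd (finrank ℚ F)) (hn : n ≤ 3) : IsSemisimpleRep ρ := by
  have _ : IsAlgClosed Ω := IsAlgClosure.isAlgClosed ℚ
  have _ : Algebra.IsAlgebraic ℚ Ω := IsAlgClosure.isAlgebraic
  have _ : IsGalois ℚ Ω := IsAlgClosure.isGalois ℚ Ω
  have hopen : IsOpen (F.fixingSubgroup : Set Gal(Ω/ℚ)) :=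
    IntermediateField.fixingSubgroup_isOpen F
  have hfinq : Finite (Gal(Ω/ℚ) ⧸ F.fixingSubgroup) := Subgroup.quotient_finite_of_isOpen _ hopen
  have hfi : F.fixingSubgroup.FiniteIndex := Subgroup.finiteIndex_of_finite_quotient
  obtain ⟨f⟩ : Nonempty (Ω →ₐ[ℚ] PadicAlgCl p) := ⟨IsAlgClosed.lift⟩
  obtain ⟨e, he⟩ := hHT f
  have hsymm := weight_symm_at (f : Ω →+* PadicAlgCl p) ρ h e he w B hB
  have hcard : Fintype.card (F →+* PadicAlgCl p) = finrank ℚ F := by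
    rw [← AlgHom.card ℚ F (PadicAlgCl p)]
    exact Fintype.card_congr (RingHom.equivRatAlgHom F (PadicAlgCl p))
  refine semisimple_criterionF F ρ hρ h hinj hHT w B hB hpure 1 (one_mul 1) ?_
  intro r J hr h2r hJ hinv hop hsum
  have hr1 : r = 1 := by omega
  subst hr1
  exact (no_family_three (by rw [hcard]; exact hodd) hn h w hinj hsymm J hJ hop hsum).elim

end main

end Pool.Agent.NF
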