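import Mathlib
import Pool.Agent.Lib.Helper90.GSem.WD2
import Pool.Agent.Lib.H99.NF.Main2

/-!
# Monodromy at one place of a number field
-/

namespace Pool.Agent.NF

open NumberField TensorProduct Module Polynomial Pool.Agent.GSem Pool.Agent.PD

section comb

theorem sum_weights_le (u : ℤ → ℕ) (w : ℤ) (S : Finset ℤ) (hS : ∀ i, i ∉ S → u i = 0)
    (hle : ∀ j : ℕ, u (w + j) ≤ u (w - j)) :
    ∑ i ∈ S, i * (u i : ℤ) ≤ w * ∑ i ∈ S, (u i : ℤ) := by
  obtain ⟨K, hK⟩ : ∃ K : ℕ, S ⊆ Finset.Icc (w - K) (w + K) := by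
    refine ⟨∑ i ∈ S, (i - w).natAbs, ?_⟩
    intro i hi
    have h1 : (i - w).natAbs ≤ ∑ i ∈ S, (i - w).natAbs :=
      Finset.single_le_sum (f := fun i => (i - w).natAbs) (fun _ _ => Nat.zero_le _) hi
    rw [Finset.mem_Icc]
    omega
  have h1 : ∑ i ∈ Finset.Icc (w - K) (w + K), (i - w) * (u i : ℤ) ≤ 0 := by
    rw [sum_Icc_symm (fun i => (u i : ℤ))]
    refine Finset.sum_nonpos fun j _ => ?_
    have := hle j
    apply mul_nonpos_of_nonneg_of_nonpos (Nat.cast_nonneg _)
    have : (u (w + j) : ℤ) ≤ u (w - j) := by exact_mod_cast this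
    linarith
  rw [← Finset.sum_subset hK (fun i _ hi => by rw [hS i hi]; simp)] at h1
  simp only [sub_mul, Finset.sum_sub_distrib] at h1
  rw [← Finset.mul_sum] at h1
  linarith

theorem sum_weights_eq (u : ℤ → ℕ) (w : ℤ) (S : Finset ℤ) (hS : ∀ i, i ∉ S → u i = 0)
    (hle : ∀ j : ℕ, u (w + j) = u (w - j)) :
    ∑ i ∈ S, i * (u i : ℤ) = w * ∑ i ∈ S, (u i : ℤ) := by
  obtain ⟨K, hK⟩ : ∃ K : ℕ, S ⊆ Finset.Icc (w - K) (w + K) := by
    refine ⟨∑ i ∈ S, (i - w).natAbs, ?_⟩
    intro i hi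
    have h1 : (i - w).natAbs ≤ ∑ i ∈ S, (i - w).natAbs :=
      Finset.single_le_sum (f := fun i => (i - w).natAbs) (fun _ _ => Nat.zero_le _) hi
    rw [Finset.mem_Icc]
    omega
  have h1 : ∑ i ∈ Finset.Icc (w - K) (w + K), (i - w) * (u i : ℤ) = 0 := by
    rw [sum_Icc_symm (fun i => (u i : ℤ))]
    refine Finset.sum_eq_zero fun j _ => ?_
    rw [hle j, sub_self, mul_zero]
  rw [← Finset.sum_subset hK (fun i _ hi => by rw [hS i hi]; simp)] at h1
  simp only [sub_mul, Finset.sum_sub_distrib] at h1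
  rw [← Finset.mul_sum] at h1
  linarith

end comb

section linear

variable {k V : Type*} [Field k] [CharZero k] [AddCommGroup V] [Module k V] [FiniteDimensional k V]

/-- **Key statement on isotropic subspaces**, given the sum of the weights. -/
theorem isotropic_eq_bot_of_sum (T N : V →ₗ[k] V) {q : ℕ} (hq : 1 < q)
    (w : ℤ) (P : ℤ → ℚ[X]) (hP : ∀ i, HasWeight q i (P i)) (S : Finset ℤ)
    (hT : aeval T ((∏ i ∈ S, P i).map (algebraMap ℚ k)) = 0)
    (hmaps : ∀ i, ∀ x ∈ wtPart T P i, N x ∈ wtPart T P (i - 2))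
    (hinj : ∀ j : ℕ, ∀ x ∈ wtPart T P (w + j), (N ^ j) x = 0 → x = 0)
    (hmult : ∀ j : ℕ, finrank k (wtPart T P (w + j)) ≤ finrank k (wtPart T P (w + j + 2)) + 1)
    (B : V →ₗ[k] V →ₗ[k] k) (hB : ∀ x, (∀ y, B x y = 0) → x = 0)
    (hBT : ∀ x y, B (T x) (T y) = (q : k) ^ (-w) * B x y)
    (U : Submodule k V) (hUT : ∀ x ∈ U, T x ∈ U) (hUN : ∀ x ∈ U, N x ∈ U)
    (hpN : ∀ x ∈ perp B U, N x ∈ perp B U) (hiso : ∀ x ∈ U, ∀ y ∈ U, B x y = 0)
    (hn2 : finrank k U = ∑ i ∈ S, finrank k (U ⊓ wtPart T P i : Submodule k V))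
    (hsum : ∑ i ∈ S, i * (finrank k (U ⊓ wtPart T P i : Submodule k V) : ℤ) =
      w * ∑ i ∈ S, (finrank k (U ⊓ wtPart T P i : Submodule k V) : ℤ)) : U = ⊥ := by
  classical
  set u : ℤ → ℕ := fun i => finrank k (U ⊓ wtPart T P i : Submodule k V) with hu
  have hzero : ∀ i, i ∉ S → u i = 0 := by
    intro i hi
    have h1 := wtPart_eq_bot T hq P hP S hT i hi
    simp only [hu]
    rw [h1, inf_bot_eq, finrank_bot]
  have hpowmaps : ∀ (j : ℕ) (i : ℤ), ∀ x ∈ wtPart T P i, (N ^ j) x ∈ wtPart T P (i - 2 * j) := by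
    intro j
    induction j with
    | zero => intro i x hx; simpa using hx
    | succ j ih =>
      intro i x hx
      have h1 := hmaps _ _ (ih i x hx)
      rw [pow_succ', Module.End.mul_apply]
      have h2 : i - 2 * (j : ℤ) - 2 = i - 2 * ((j + 1 : ℕ) : ℤ) := by push_cast; ring
      rw [h2] at h1
      exact h1
  have hUpow : ∀ (j : ℕ), ∀ x ∈ U, (N ^ j) x ∈ U := by
    intro j
    induction j with
    | zero => intro x hx; exact hx
    | succ j ih =>
      intro x hx
      rw [pow_succ', Module.End.mul_apply]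
      exact hUN _ (ih x hx)
  have hle : ∀ j : ℕ, u (w + j) ≤ u (w - j) := by
    intro j
    have hmapsto : ∀ x ∈ (U ⊓ wtPart T P (w + j)), (N ^ j) x ∈ (U ⊓ wtPart T P (w - j)) := by
      rintro x ⟨hx1, hx2⟩
      refine ⟨hUpow j x hx1, ?_⟩
      have h1 := hpowmaps j _ x hx2
      have h2 : w + (j : ℤ) - 2 * j = w - j := by ring
      rw [h2] at h1
      exact h1
    apply LinearMap.finrank_le_finrank_of_injective (f := (N ^ j).restrict hmapsto)
    rw [← LinearMap.ker_eq_bot, LinearMap.ker_eq_bot']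
    intro x hx
    apply Subtype.ext
    exact hinj j x x.2.2 (congrArg Subtype.val hx)
  have hsymm := symm_of_sum u w S hzero hle hsum
  -- now suppose `U ≠ ⊥`
  by_contra hU0
  have hex : ∃ j : ℕ, u (w + j) ≠ 0 := by
    by_contra hcon
    push Not at hcon
    apply hU0
    apply Submodule.finrank_eq_zero.1
    rw [hn2]
    refine Finset.sum_eq_zero fun i _ => ?_
    change u i = 0
    rcases le_total w i with h | h
    · obtain ⟨j, hj⟩ := Int.eq_ofNat_of_zero_le (sub_nonneg.2 h)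
      have : i = w + j := by linarith
      rw [this, hcon j]
    · obtain ⟨j, hj⟩ := Int.eq_ofNat_of_zero_le (sub_nonneg.2 h)
      have : i = w - j := by linarith
      rw [this, ← hsymm j, hcon j]
  -- the largest such index
  obtain ⟨K, hK⟩ : ∃ K : ℕ, ∀ j : ℕ, u (w + j) ≠ 0 → j ≤ K := by
    refine ⟨∑ i ∈ S, (i - w).natAbs, ?_⟩
    intro j hj
    have hmem : (w + j) ∈ S := by
      by_contra h
      exact hj (hzero _ h)
    have h1 : ((w + j) - w).natAbs ≤ ∑ i ∈ S, (i - w).natAbs :=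
      Finset.single_le_sum (f := fun i => (i - w).natAbs) (fun _ _ => Nat.zero_le _) hmem
    have h2 : ((w + j) - w).natAbs = j := by
      have : w + (j : ℤ) - w = j := by ring
      rw [this, Int.natAbs_natCast]
    omega
  obtain ⟨j, hj, hjmax⟩ : ∃ j : ℕ, u (w + j) ≠ 0 ∧ ∀ j' : ℕ, u (w + j') ≠ 0 → j' ≤ j := by
    let F : Finset ℕ := (Finset.range (K + 1)).filter (fun j => u (w + (j : ℤ)) ≠ 0)
    have hFne : F.Nonempty := by
      obtain ⟨j, hj⟩ := hex
      exact ⟨j, Finset.mem_filter.2 ⟨Finset.mem_range.2 (by have := hK j hj; omega), hj⟩⟩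
    refine ⟨F.max' hFne, ?_, ?_⟩
    · exact (Finset.mem_filter.1 (F.max'_mem hFne)).2
    · intro j' hj'
      apply Finset.le_max'
      exact Finset.mem_filter.2 ⟨Finset.mem_range.2 (by have := hK j' hj'; omega), hj'⟩
  have hj2 : u (w + (j + 2 : ℕ)) = 0 := by
    by_contra h
    have := hjmax _ h
    omega
  have hj2' : u (w - (j + 2 : ℕ)) = 0 := by rw [← hsymm, hj2]
  -- the subspaces of the weight part `A`
  set A := wtPart T P (w + j) with hA
  set A₂ := wtPart T P (w + j + 2) with hA₂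
  have hA₂' : A₂ = wtPart T P (w + (j + 2 : ℕ)) := by
    rw [hA₂]
    congr 1
    push_cast
    ring
  set Xs := U ⊓ A with hXs
  set Ys := A₂.map N with hYs
  set Z := perp B U ⊓ A with hZ
  -- total decomposition of V
  have htotal : (⊤ : Submodule k V) ≤ ⨆ i, wtPart T P i := by
    have h1 := le_iSup_wtPart T hq P hP S ⊤ (fun _ _ => trivial) (fun x _ => by rw [hT]; rfl)
    refine h1.trans (iSup_mono fun i => inf_le_right)
  have horth : ∀ i i' : ℤ, i + i' ≠ 2 * w → ∀ x ∈ wtPart T P i, ∀ y ∈ wtPart T P i', B x y = 0 :=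
    fun i i' hii x hx y hy => pair_orth B T hq w hBT hii (hP i) (hP i') x y hx hy
  -- `A₂ ≤ perp U`
  have hA₂perp : A₂ ≤ perp B U := by
    intro y hy x₀ hx₀
    have h1 := le_iSup_wtPart T hq P hP S U hUT (fun x _ => by rw [hT]; rfl) hx₀
    clear hx₀
    induction h1 using Submodule.iSup_induction' with
    | mem i x hx =>
      by_cases hi : i + (w + j + 2) = 2 * w
      · have h2 : i = w - (j + 2 : ℕ) := by push_cast; linarith
        have h3 : (U ⊓ wtPart T P i : Submodule k V) = ⊥ := by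
          apply Submodule.finrank_eq_zero.1
          rw [h2]
          exact hj2'
        rw [h3, Submodule.mem_bot] at hx
        rw [hx, map_zero, LinearMap.zero_apply]
      · exact horth _ _ hi x hx.2 y hy
    | zero => rw [map_zero, LinearMap.zero_apply]
    | add x x' _ _ hx hx' => rw [map_add, LinearMap.add_apply, hx, hx', add_zero]
  have hYZ : Ys ≤ Z := by
    rintro _ ⟨y, hy, rfl⟩
    refine ⟨hpN y (hA₂perp hy), ?_⟩
    have h1 := hmaps _ y hy
    have h2 : w + (j : ℤ) + 2 - 2 = w + j := by ring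
    rw [h2] at h1
    exact h1
  have hXZ : Xs ≤ Z := by
    rintro x ⟨hx1, hx2⟩
    exact ⟨fun y hy => hiso y hy x hx1, hx2⟩
  have hdisj : Disjoint Xs Ys := by
    rw [disjoint_iff_inf_le]
    rintro x ⟨⟨hx1, _⟩, ⟨y, hy, rfl⟩⟩
    have hy' : y ∈ wtPart T P (w + (j + 2 : ℕ)) := by rw [← hA₂']; exact hy
    have h1 : (N ^ (j + 1)) (N y) ∈ U ⊓ wtPart T P (w - (j + 2 : ℕ)) := by
      refine ⟨hUpow _ _ hx1, ?_⟩
      rw [← Module.End.mul_apply, ← pow_succ]
      have h2 := hpowmaps (j + 1 + 1) _ y hy'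
      have h3 : w + ((j + 2 : ℕ) : ℤ) - 2 * ((j + 1 + 1 : ℕ) : ℤ) = w - (j + 2 : ℕ) := by
        push_cast; ring
      rw [h3] at h2
      exact h2
    have h2 : (U ⊓ wtPart T P (w - (j + 2 : ℕ)) : Submodule k V) = ⊥ :=
      Submodule.finrank_eq_zero.1 hj2'
    rw [h2, Submodule.mem_bot, ← Module.End.mul_apply, ← pow_succ] at h1
    have h3 := hinj (j + 2) y hy' h1
    rw [h3, map_zero]
    exact Submodule.zero_mem _
  have hYdim : finrank k Ys = finrank k A₂ := by
    have h1 : LinearMap.range (N.domRestrict A₂) = Ys := LinearMap.range_domRestrict _ _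
    rw [← h1]
    apply LinearMap.finrank_range_of_inj
    rw [← LinearMap.ker_eq_bot, LinearMap.ker_eq_bot']
    intro y hy
    apply Subtype.ext
    have hy' : (y : V) ∈ wtPart T P (w + (j + 2 : ℕ)) := by rw [← hA₂']; exact y.2
    apply hinj (j + 2) y hy'
    have h2 : N (y : V) = 0 := hy
    rw [pow_succ, Module.End.mul_apply, h2, map_zero]
  have hZdim : u (w - j) + finrank k Z ≤ finrank k A := by
    apply pairing_bound B (U ⊓ wtPart T P (w - j)) A Z inf_le_right
    · intro x hx z hz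
      exact hz.1 x hx.1
    · intro x hx hxa
      apply hB
      intro v
      have h1 := htotal (show v ∈ (⊤ : Submodule k V) from trivial)
      induction h1 using Submodule.iSup_induction' with
      | mem i v hv =>
        by_cases hi : i = w + j
        · subst hi
          exact hxa v hv
        · refine horth _ _ ?_ x hx.2 v hv
          intro h
          apply hi
          linarith
      | zero => rw [map_zero]
      | add v v' _ _ hv hv' => rw [map_add, hv, hv', add_zero]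
  have h1 : finrank k Xs + finrank k Ys ≤ finrank k Z := by
    have h2 := Submodule.finrank_sup_add_finrank_inf_eq Xs Ys
    rw [disjoint_iff.1 hdisj, finrank_bot, add_zero] at h2
    rw [← h2]
    exact Submodule.finrank_mono (sup_le hXZ hYZ)
  have h2 := hmult j
  have h3 : finrank k Xs = u (w + j) := rfl
  have h4 := hsymm j
  rw [hYdim] at h1
  rw [← hA, ← hA₂] at h2
  omega

end linear

end Pool.Agent.NF
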