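import Mathlib
import Pool.Agent.Lib.H99.NF.Mono1
import Pool.Agent.Lib.H99.NF.DefsM

/-!
# The weight of a stable subspace at one place
-/

namespace Pool.Agent.NF

open NumberField TensorProduct Module Polynomial Pool.Agent.GSem Pool.Agent.PD

section linear

variable {k V : Type*} [Field k] [CharZero k] [AddCommGroup V] [Module k V] [FiniteDimensional k V]

omit [FiniteDimensional k V] in
theorem pow_maps {T N : V →ₗ[k] V} {P : ℤ → ℚ[X]}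
    (hmaps : ∀ i, ∀ x ∈ wtPart T P i, N x ∈ wtPart T P (i - 2)) :
    ∀ (j : ℕ) (i : ℤ), ∀ x ∈ wtPart T P i, (N ^ j) x ∈ wtPart T P (i - 2 * j) := by
  intro j
  induction j with
  | zero => intro i x hx; simpa using hx
  | succ j ih =>
    intro i x hx
    have h1 := hmaps _ _ (ih i x hx)
    rw [pow_succ', Module.End.mul_apply]
    have h2 : i - 2 * (j : ℤ) - 2 = i - 2 * ((j + 1 : ℕ) : ℤ) := by push_cast; ring
    rw [h2] at h1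
    exact h1

omit [FiniteDimensional k V] [CharZero k] in
theorem pow_stable {N : V →ₗ[k] V} {U : Submodule k V} (hUN : ∀ x ∈ U, N x ∈ U) :
    ∀ (j : ℕ), ∀ x ∈ U, (N ^ j) x ∈ U := by
  intro j
  induction j with
  | zero => intro x hx; exact hx
  | succ j ih =>
    intro x hx
    rw [pow_succ', Module.End.mul_apply]
    exact hUN _ (ih x hx)

/-- The weights of a stable subspace: inequality. -/
theorem weights_sub_le (T N : V →ₗ[k] V) {q : ℕ} (hq : 1 < q)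
    (w : ℤ) (P : ℤ → ℚ[X]) (hP : ∀ i, HasWeight q i (P i)) (S : Finset ℤ)
    (hT : aeval T ((∏ i ∈ S, P i).map (algebraMap ℚ k)) = 0)
    (hmaps : ∀ i, ∀ x ∈ wtPart T P i, N x ∈ wtPart T P (i - 2))
    (hinj : ∀ j : ℕ, ∀ x ∈ wtPart T P (w + j), (N ^ j) x = 0 → x = 0)
    (U : Submodule k V) (hUN : ∀ x ∈ U, N x ∈ U) :
    ∑ i ∈ S, i * (finrank k (U ⊓ wtPart T P i : Submodule k V) : ℤ) ≤
      w * ∑ i ∈ S, (finrank k (U ⊓ wtPart T P i : Submodule k V) : ℤ) := by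
  refine sum_weights_le (fun i => finrank k (U ⊓ wtPart T P i : Submodule k V)) w S ?_ ?_
  · intro i hi
    change finrank k (U ⊓ wtPart T P i : Submodule k V) = 0
    rw [wtPart_eq_bot T hq P hP S hT i hi, inf_bot_eq, finrank_bot]
  · intro j
    have hmapsto : ∀ x ∈ (U ⊓ wtPart T P (w + j)), (N ^ j) x ∈ (U ⊓ wtPart T P (w - j)) := by
      rintro x ⟨hx1, hx2⟩
      refine ⟨pow_stable hUN j x hx1, ?_⟩
      have h1 := pow_maps hmaps j _ x hx2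
      have h2 : w + (j : ℤ) - 2 * j = w - j := by ring
      rw [h2] at h1
      exact h1
    apply LinearMap.finrank_le_finrank_of_injective (f := (N ^ j).restrict hmapsto)
    rw [← LinearMap.ker_eq_bot, LinearMap.ker_eq_bot']
    intro x hx
    apply Subtype.ext
    exact hinj j x x.2.2 (congrArg Subtype.val hx)

/-- The weights of the whole space. -/
theorem weights_top_eq (T N : V →ₗ[k] V) {q : ℕ} (hq : 1 < q)
    (w : ℤ) (P : ℤ → ℚ[X]) (hP : ∀ i, HasWeight q i (P i)) (S : Finset ℤ)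
    (hT : aeval T ((∏ i ∈ S, P i).map (algebraMap ℚ k)) = 0)
    (hbij : ∀ j : ℕ, Set.BijOn (N ^ j) (wtPart T P (w + j)) (wtPart T P (w - j))) :
    ∑ i ∈ S, i * (finrank k (⊤ ⊓ wtPart T P i : Submodule k V) : ℤ) =
      w * ∑ i ∈ S, (finrank k (⊤ ⊓ wtPart T P i : Submodule k V) : ℤ) := by
  refine sum_weights_eq (fun i => finrank k (⊤ ⊓ wtPart T P i : Submodule k V)) w S ?_ ?_
  · intro i hi
    change finrank k (⊤ ⊓ wtPart T P i : Submodule k V) = 0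
    rw [wtPart_eq_bot T hq P hP S hT i hi, inf_bot_eq, finrank_bot]
  · intro j
    have hb := hbij j
    have hF : ∀ x ∈ wtPart T P (w + j), (N ^ j) x ∈ wtPart T P (w - j) := fun x hx => hb.mapsTo hx
    let E : wtPart T P (w + j) ≃ₗ[k] wtPart T P (w - j) :=
      LinearEquiv.ofBijective ((N ^ j).restrict hF) ⟨by
        intro x y hxy
        exact Subtype.ext (hb.injOn x.2 y.2 (congrArg Subtype.val hxy)), by
        intro y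
        obtain ⟨x, hx, hxy⟩ := hb.surjOn y.2
        exact ⟨⟨x, hx⟩, Subtype.ext hxy⟩⟩
    change finrank k (⊤ ⊓ wtPart T P (w + j) : Submodule k V) =
      finrank k (⊤ ⊓ wtPart T P (w - j) : Submodule k V)
    rw [top_inf_eq, top_inf_eq]
    exact E.finrank_eq

end linear

section rep

variable {p : ℕ} [hp : Fact p.Prime] {Ω : Type*} [Field Ω] [CharZero Ω]
variable {Γ : Subgroup Gal(Ω/ℚ)} {V : Type*} [AddCommGroup V] [Module ℚ_[p] V]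
  [FiniteDimensional ℚ_[p] V]

theorem HasWMAt.norm_det {ρ : Representation ℚ_[p] Γ V} {w : ℤ} {q : ℕ} {g : Γ}
    (h : HasWMAt ρ w q g) (hq : 1 < q) (J : AlgebraicClosure ℚ_[p] →+* ℂ)
    (U : Submodule ℚ_[p] V) (hU : ∀ g, ∀ u ∈ U, ρ g u ∈ U) :
    ∃ a : ℤ, ‖J (algebraMap ℚ_[p] _ (detG ρ U hU g))‖ ^ 2 = (q : ℝ) ^ (-a) ∧
      a ≤ w * finrank ℚ_[p] U ∧ (U = ⊤ → a = w * finrank ℚ_[p] U) := by
  obtain ⟨τ, N, P, S, hτ, hN, hTN, hP, hS, hbij⟩ := h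
  have hUN : ∀ x ∈ U, N x ∈ U :=
    stable_of_nexp N hN U (fun x hx => by rw [← hτ]; exact hU τ x hx)
  have hmaps := monodromy_maps (ρ g) N hq P hP S hS hTN
  obtain ⟨h1, h2⟩ := norm_det_weights J (ρ g) hq P hP S U (hU g) (fun x _ => by rw [hS]; rfl)
  refine ⟨_, h1, ?_, ?_⟩
  · have h3 := weights_sub_le (ρ g) N hq w P hP S hS hmaps (fun j x hx hx0 => by
      refine (hbij j).injOn hx (Submodule.zero_mem _) ?_
      rw [hx0, map_zero]) U hUN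
    rw [h2]
    push_cast
    exact h3
  · rintro rfl
    have h3 := weights_top_eq (ρ g) N hq w P hP S hS hbij
    rw [h2]
    push_cast
    exact h3

end rep

section main

variable {p : ℕ} [hp : Fact p.Prime] {Ω : Type*} [Field Ω] [CharZero Ω] [IsAlgClosed Ω]
  [IsGalois ℚ Ω]
variable {Γ : Subgroup Gal(Ω/ℚ)} {V : Type*} [AddCommGroup V] [Module ℚ_[p] V]
  [FiniteDimensional ℚ_[p] V]

/-- **The product of the absolute values** of the determinants at the places above `l`. -/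
theorem prod_of_norms [Γ.FiniteIndex] [Fintype (Gal(Ω/ℚ) ⧸ Γ)]
    (J : AlgebraicClosure ℚ_[p] →+* ℂ) {S : ℤ} {M : ℕ} (hM : 0 < M)
    (D : Γ →* ℚ_[p]) {q m : ℕ} (hq : q.Prime) (hqp : q ≠ p) {φ : Gal(Ω/ℚ)}
    (hφ : IsFrobAt q φ) (hφΓ : ∀ x : Gal(Ω/ℚ), x⁻¹ * φ ^ m * x ∈ Γ)
    (hrel : (∏ x : Gal(Ω/ℚ) ⧸ Γ, D ⟨x.out⁻¹ * φ ^ m * x.out, hφΓ _⟩) ^ M =
        (toQ (cyc p Ω (φ ^ m))) ^ (-(M * S) : ℤ)) :
    ∏ x : Gal(Ω/ℚ) ⧸ Γ, ‖J (algebraMap ℚ_[p] _ (D ⟨x.out⁻¹ * φ ^ m * x.out, hφΓ _⟩))‖ ^ 2 =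
      ((q ^ m : ℕ) : ℝ) ^ (-(2 * S)) := by
  have hq0 : (0 : ℝ) < ((q ^ m : ℕ) : ℝ) := by exact_mod_cast Nat.pow_pos hq.pos
  have h1 : (‖J (algebraMap ℚ_[p] _
      (∏ x : Gal(Ω/ℚ) ⧸ Γ, D ⟨x.out⁻¹ * φ ^ m * x.out, hφΓ _⟩))‖ ^ 2) ^ M =
      (((q ^ m : ℕ) : ℝ) ^ (-(2 * S))) ^ M := by
    rw [← pow_mul, mul_comm 2 M, pow_mul, ← norm_pow, ← map_pow, ← map_pow, hrel,
      cyc_frob_pow hq hqp hφ, map_zpow₀, map_zpow₀, map_pow, map_pow, map_natCast, map_natCast,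
      norm_zpow, norm_pow, Complex.norm_natCast, ← zpow_natCast, ← zpow_mul, ← zpow_natCast _ M,
      ← zpow_mul]
    push_cast
    congr 1
    ring
  have h2 := (pow_left_inj₀ (by positivity) (zpow_nonneg hq0.le _) hM.ne').1 h1
  rw [← h2, map_prod, map_prod, norm_prod, ← Finset.prod_pow]

/-- **The weight at one place.** -/
theorem weight_at_one [Γ.FiniteIndex] (hΓ : IsOpen (Γ : Set Gal(Ω/ℚ)))
    (ρ : Representation ℚ_[p] Γ V) (hρ : IsContRep ρ)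
    (hHT : ∀ ι : Ω →+* PadicAlgCl p, ∃ (n : ℕ) (h : Fin n → ℤ)
      (e : Basis (Fin n) ℂ_[p] (ℂ_[p] ⊗[ℚ_[p]] V)), IsHTBasisAt ι ρ h e)
    (w : ℤ) (hpure : IsPureAbove ρ w) {l m : ℕ} (hl : l.Prime) (hlp : l ≠ p) (hm : 0 < m)
    {φ : Gal(Ω/ℚ)} (hφ : IsFrobAt l φ) (hφΓ : ∀ x : Gal(Ω/ℚ), x⁻¹ * φ ^ m * x ∈ Γ)
    (hφ1 : φ ^ m ∈ Γ)
    (hWM : ∀ x : Gal(Ω/ℚ), x ∉ Γ → HasWMAt ρ w (l ^ m) ⟨x⁻¹ * φ ^ m * x, hφΓ x⟩)
    (J : AlgebraicClosure ℚ_[p] →+* ℂ)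
    (U : Submodule ℚ_[p] V) (hU : ∀ g, ∀ u ∈ U, ρ g u ∈ U) :
    ‖J (algebraMap ℚ_[p] _ (detG ρ U hU ⟨φ ^ m, hφ1⟩))‖ ^ 2 ≤
      ((l ^ m : ℕ) : ℝ) ^ (-(w * finrank ℚ_[p] U)) ∧
    (U = ⊤ → ‖J (algebraMap ℚ_[p] _ (detG ρ U hU ⟨φ ^ m, hφ1⟩))‖ ^ 2 =
      ((l ^ m : ℕ) : ℝ) ^ (-(w * finrank ℚ_[p] U))) := by
  classical
  let _ : Fintype (Gal(Ω/ℚ) ⧸ Γ) := Fintype.ofFinite _
  have hq1 : 1 < l ^ m := Nat.one_lt_pow hm.ne' hl.one_lt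
  have hq1' : (1 : ℝ) < ((l ^ m : ℕ) : ℝ) := by exact_mod_cast hq1
  have hq0 : (0 : ℝ) < ((l ^ m : ℕ) : ℝ) := by linarith
  obtain ⟨ι₀⟩ : Nonempty (Ω →+* PadicAlgCl p) := by
    have _ : Algebra.IsAlgebraic ℚ Ω := inferInstance
    obtain ⟨f⟩ : Nonempty (Ω →ₐ[ℚ] PadicAlgCl p) := ⟨IsAlgClosed.lift⟩
    exact ⟨f⟩
  have hH : ∀ x : Gal(Ω/ℚ) ⧸ Γ, ∃ H : ℤ, ∃ c : ℂ_[p], c ≠ 0 ∧ ∀ σ (g : Γ),
      Compat (twistEmb ι₀ x.out) σ (g : Gal(Ω/ℚ)) →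
      galC σ c * algebraMap ℚ_[p] ℂ_[p] (detG ρ U hU g) =
        algebraMap ℚ_[p] ℂ_[p] (toQ (cyc p Ω (g : Gal(Ω/ℚ))) ^ (-H)) * c := by
    intro x
    obtain ⟨n, h, e, he⟩ := hHT (twistEmb ι₀ x.out)
    have hUR : ∀ σ T u, relAt (twistEmb ι₀ x.out) ρ σ T u → ∀ x ∈ U, T x ∈ U := by
      rintro σ T u ⟨g, -, rfl, -⟩
      exact hU g
    obtain ⟨H, c, hc, h2⟩ := exists_det_abs h e (basisRel_of_HT he) U hUR
    exact ⟨H, c, hc, fun σ g hg => h2 σ (ρ g) _ ⟨g, hg, rfl, rfl⟩⟩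
  choose H hH using hH
  have hsum := sum_weights hΓ ι₀ ρ hρ w hpure U hU H hH
  obtain ⟨M, hM, hrel⟩ := exists_det_relation hΓ ι₀ ρ hρ U hU H hH
  have hprod := prod_of_norms J hM (detG ρ U hU) hl hlp hφ hφΓ (hrel _ hφΓ)
  rw [hsum] at hprod
  set R : Gal(Ω/ℚ) → ℝ := fun x =>
    ‖J (algebraMap ℚ_[p] _ (detG ρ U hU ⟨x⁻¹ * φ ^ m * x, hφΓ x⟩))‖ ^ 2 with hR
  set E : ℝ := ((l ^ m : ℕ) : ℝ) ^ (-(w * finrank ℚ_[p] U)) with hE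
  have hE0 : 0 < E := zpow_pos hq0 _
  have hR1 : ∀ x : Gal(Ω/ℚ), x ∈ Γ →
      R x = ‖J (algebraMap ℚ_[p] _ (detG ρ U hU ⟨φ ^ m, hφ1⟩))‖ ^ 2 := by
    intro x hx
    have h1 : (⟨x⁻¹ * φ ^ m * x, hφΓ x⟩ : Γ) = (⟨x, hx⟩ : Γ)⁻¹ * ⟨φ ^ m, hφ1⟩ * ⟨x, hx⟩ := rfl
    have h2 : detG ρ U hU ⟨x⁻¹ * φ ^ m * x, hφΓ x⟩ = detG ρ U hU ⟨φ ^ m, hφ1⟩ := by
      rw [h1, map_mul, map_mul, mul_comm, ← mul_assoc, ← map_mul, mul_inv_cancel, map_one,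
        one_mul]
    simp only [hR]
    rw [h2]
  have hR2 : ∀ x : Gal(Ω/ℚ), x ∉ Γ → E ≤ R x ∧ (U = ⊤ → R x = E) := by
    intro x hx
    obtain ⟨b, hb1, hb2, hb3⟩ := (hWM x hx).norm_det hq1 J U hU
    simp only [hR]
    rw [hb1, hE]
    refine ⟨zpow_le_zpow_right₀ hq1'.le (by linarith), fun h => ?_⟩
    rw [hb3 h]
  -- the coset of one
  set x₁ : Gal(Ω/ℚ) ⧸ Γ := ((1 : Gal(Ω/ℚ)) : Gal(Ω/ℚ) ⧸ Γ) with hx₁
  have hout : ∀ x : Gal(Ω/ℚ) ⧸ Γ, x.out ∈ Γ ↔ x = x₁ := by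
    intro x
    constructor
    · intro h
      rw [← QuotientGroup.out_eq' x, hx₁, QuotientGroup.eq, mul_one]
      exact Γ.inv_mem h
    · rintro rfl
      have h1 := QuotientGroup.out_eq' x₁
      rw [hx₁, QuotientGroup.eq, mul_one] at h1
      simpa using Γ.inv_mem h1
  have hprod' : R x₁.out * ∏ x ∈ Finset.univ.erase x₁, R x.out =
      E * ∏ _x ∈ (Finset.univ : Finset (Gal(Ω/ℚ) ⧸ Γ)).erase x₁, E := by
    have e1 := Finset.mul_prod_erase Finset.univ (fun x : Gal(Ω/ℚ) ⧸ Γ => R x.out)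
      (Finset.mem_univ x₁)
    have e2 := Finset.mul_prod_erase Finset.univ (fun _ : Gal(Ω/ℚ) ⧸ Γ => E)
      (Finset.mem_univ x₁)
    refine e1.trans (Eq.trans ?_ e2.symm)
    rw [Finset.prod_const, Finset.card_univ]
    refine hprod.trans ?_
    rw [hE, ← zpow_natCast, ← zpow_mul]
    congr 1
    ring
  have hP0 : 0 < ∏ _x ∈ (Finset.univ : Finset (Gal(Ω/ℚ) ⧸ Γ)).erase x₁, E :=
    Finset.prod_pos fun _ _ => hE0
  have hle : ∏ _x ∈ (Finset.univ : Finset (Gal(Ω/ℚ) ⧸ Γ)).erase x₁, E ≤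
      ∏ x ∈ Finset.univ.erase x₁, R x.out := by
    refine Finset.prod_le_prod (fun _ _ => hE0.le) fun x hx => ?_
    exact (hR2 x.out (fun h => (Finset.mem_erase.1 hx).1 ((hout x).1 h))).1
  rw [← hR1 _ ((hout x₁).2 rfl)]
  constructor
  · have h1 : R x₁.out * ∏ _x ∈ (Finset.univ : Finset (Gal(Ω/ℚ) ⧸ Γ)).erase x₁, E ≤
        E * ∏ _x ∈ (Finset.univ : Finset (Gal(Ω/ℚ) ⧸ Γ)).erase x₁, E := by
      rw [← hprod']
      exact mul_le_mul_of_nonneg_left hle (by simp only [hR]; positivity)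
    exact le_of_mul_le_mul_right h1 hP0
  · intro htop
    have heq : ∏ x ∈ Finset.univ.erase x₁, R x.out =
        ∏ _x ∈ (Finset.univ : Finset (Gal(Ω/ℚ) ⧸ Γ)).erase x₁, E := by
      refine Finset.prod_congr rfl fun x hx => ?_
      exact (hR2 x.out (fun h => (Finset.mem_erase.1 hx).1 ((hout x).1 h))).2 htop
    rw [heq] at hprod'
    exact mul_right_cancel₀ hP0.ne' hprod'

/-- **Distinct Jordan blocks at one place imply semisimplicity.** -/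
theorem semisimple_of_monodromyF [Γ.FiniteIndex] (hΓ : IsOpen (Γ : Set Gal(Ω/ℚ)))
    (ρ : Representation ℚ_[p] Γ V) (hρ : IsContRep ρ)
    (hHT : ∀ ι : Ω →+* PadicAlgCl p, ∃ (n : ℕ) (h : Fin n → ℤ)
      (e : Basis (Fin n) ℂ_[p] (ℂ_[p] ⊗[ℚ_[p]] V)), IsHTBasisAt ι ρ h e)
    (w : ℤ) (B : V →ₗ[ℚ_[p]] V →ₗ[ℚ_[p]] ℚ_[p]) (hB : IsPol ρ w B)
    (hpure : IsPureAbove ρ w) {l m : ℕ} (hl : l.Prime) (hlp : l ≠ p) (hm : 0 < m)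
    {φ : Gal(Ω/ℚ)} (hφ : IsFrobAt l φ) (hφΓ : ∀ x : Gal(Ω/ℚ), x⁻¹ * φ ^ m * x ∈ Γ)
    (hφ1 : φ ^ m ∈ Γ)
    (hWM : ∀ x : Gal(Ω/ℚ), x ∉ Γ → HasWMAt ρ w (l ^ m) ⟨x⁻¹ * φ ^ m * x, hφΓ x⟩)
    (τ : Γ) (N : V →ₗ[ℚ_[p]] V) (hN : IsNilpotent N) (hτ : ρ τ = nexp N)
    (hφN : ∀ x, ρ ⟨φ ^ m, hφ1⟩ (N x) = ((l ^ m : ℕ) : ℚ_[p]) • N (ρ ⟨φ ^ m, hφ1⟩ x))
    (P : ℤ → ℚ[X]) (hP : ∀ i, HasWeight (l ^ m) i (P i)) (S : Finset ℤ)
    (hS : aeval (ρ ⟨φ ^ m, hφ1⟩) ((∏ i ∈ S, P i).map (algebraMap ℚ ℚ_[p])) = 0)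
    (hinj : ∀ j : ℕ, ∀ x ∈ wtPart (ρ ⟨φ ^ m, hφ1⟩) P (w + j), (N ^ j) x = 0 → x = 0)
    (hmult : ∀ j : ℕ, finrank ℚ_[p] (wtPart (ρ ⟨φ ^ m, hφ1⟩) P (w + j)) ≤
      finrank ℚ_[p] (wtPart (ρ ⟨φ ^ m, hφ1⟩) P (w + j + 2)) + 1) : IsSemisimpleRep ρ := by
  apply semisimple_of_isotropicF ρ w B hB
  intro U hU hiso
  obtain ⟨J⟩ := exists_embedding p
  have hq1 : 1 < l ^ m := Nat.one_lt_pow hm.ne' hl.one_lt
  set T := ρ ⟨φ ^ m, hφ1⟩ with hT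
  have hstab : ∀ W : Submodule ℚ_[p] V, (∀ g, ∀ x ∈ W, ρ g x ∈ W) → ∀ x ∈ W, N x ∈ W :=
    fun W hW => stable_of_nexp N hN W (fun x hx => by rw [← hτ]; exact hW τ x hx)
  have hmaps := monodromy_maps T N hq1 P hP S hS hφN
  obtain ⟨h1, h2⟩ := norm_det_weights J T hq1 P hP S U (hU _) (fun x _ => by rw [hS]; rfl)
  have h3 : w * finrank ℚ_[p] U ≤
      ∑ i ∈ S, i * (finrank ℚ_[p] (U ⊓ wtPart T P i : Submodule ℚ_[p] V) : ℤ) := by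
    have h4 := (weight_at_one hΓ ρ hρ hHT w hpure hl hlp hm hφ hφΓ hφ1 hWM J U hU).1
    have h5 : detG ρ U hU ⟨φ ^ m, hφ1⟩ = LinearMap.det (T.restrict (hU ⟨φ ^ m, hφ1⟩)) := rfl
    rw [h5, h1] at h4
    have h6 := (zpow_le_zpow_iff_right₀ (by exact_mod_cast hq1)).1 h4
    change -(∑ i ∈ S, i * (finrank ℚ_[p] (U ⊓ wtPart T P i : Submodule ℚ_[p] V) : ℤ)) ≤ _ at h6
    linarith
  have h4 := weights_sub_le T N hq1 w P hP S hS hmaps hinj U (hstab U hU)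
  have hcyc : toQ (cyc p Ω (φ ^ m)) = ((l ^ m : ℕ) : ℚ_[p]) := by
    rw [cyc_frob_pow hl hlp hφ, Nat.cast_pow]
  refine isotropic_eq_bot_of_sum T N hq1 w P hP S hS hmaps hinj hmult B hB.1
    (fun x y => by rw [hT, hB.2, ← hcyc]) U (hU _) (hstab U hU)
    (hstab _ (perp_stableG ρ B (fun g => toQ (cyc p Ω (g : Gal(Ω/ℚ))) ^ (-w)) hB.2 U hU)) hiso
    h2 ?_
  rw [h2] at h3
  push_cast at h3
  exact le_antisymm h4 h3

end main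

end Pool.Agent.NF
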