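import Mathlib
import Pool.Agent.Lib.H99.NF.Mono2

/-!
# Principal monodromy at one place
-/

namespace Pool.Agent.NF

open NumberField TensorProduct Module Polynomial Pool.Agent.GSem Pool.Agent.PD

section abs

variable {K G V : Type*} [Field K] [CharZero K] [Group G] [AddCommGroup V] [Module K V]
  [FiniteDimensional K V]

/-- A representation with a principal unipotent operator which has no proper stable subspaces is
absolutely irreducible on subgroups of finite index. -/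
theorem abs_of_irreducible (ρ : Representation K G V) (N : V →ₗ[K] V) (hN : IsNilpotent N)
    (hker : finrank K (LinearMap.ker N) ≤ 1) (τ : G) (hτ : ρ τ = nexp N)
    (hirr : ∀ W : Submodule K V, (∀ g, ∀ x ∈ W, ρ g x ∈ W) → W = ⊥ ∨ W = ⊤)
    (D : Subgroup G) [hD : D.FiniteIndex] :
    (∀ W : Submodule K V, (∀ g ∈ D, ∀ x ∈ W, ρ g x ∈ W) → W = ⊥ ∨ W = ⊤) ∧
      ∀ f : V →ₗ[K] V, (∀ g ∈ D, ∀ x, f (ρ g x) = ρ g (f x)) → ∃ c : K, ∀ x, f x = c • x := by
  have hirr' : ∀ W : Submodule K V, (∀ g ∈ D, ∀ x ∈ W, ρ g x ∈ W) → W = ⊥ ∨ W = ⊤ := by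
    intro W hW
    apply hirr
    set C := D.normalCore with hC
    have hCfin : C.FiniteIndex := inferInstance
    obtain ⟨m, hm, _, hmC⟩ := Subgroup.exists_pow_mem_of_index_ne_zero hCfin.index_ne_zero τ
    have hpow : ρ (τ ^ m) = nexp N ^ m := by rw [map_pow, hτ]
    have hstab : ∀ W' : Submodule K V, (∀ g ∈ C, ∀ x ∈ W', ρ g x ∈ W') →
        ∀ x ∈ W', N x ∈ W' := by
      intro W' hW'
      apply stable_of_mem_adjoin _ N (mem_adjoin_nexp_pow N hN m hm) W'
      intro x hx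
      rw [← hpow]
      exact hW' _ hmC x hx
    have hWC : ∀ g ∈ C, ∀ x ∈ W, ρ g x ∈ W := fun g hg => hW g (Subgroup.normalCore_le D hg)
    intro g
    have hinv' : ∀ x, ρ g⁻¹ (ρ g x) = x := by
      intro x
      have : ρ g⁻¹ (ρ g x) = (ρ g⁻¹ * ρ g) x := rfl
      rw [this, ← map_mul, inv_mul_cancel, map_one]
      rfl
    have hinjg : Function.Injective (ρ g) := Function.LeftInverse.injective hinv'
    have hstab2 : ∀ c ∈ C, ∀ x ∈ W.map (ρ g), ρ c x ∈ W.map (ρ g) := by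
      rintro c hc _ ⟨x, hx, rfl⟩
      refine ⟨ρ (g⁻¹ * c * g) x, ?_, ?_⟩
      · apply hWC _ _ x hx
        have hnorm : C.Normal := Subgroup.normalCore_normal D
        have := hnorm.conj_mem c hc g⁻¹
        rwa [inv_inv] at this
      · have h1 : ρ g (ρ (g⁻¹ * c * g) x) = ρ (g * (g⁻¹ * c * g)) x := by
          rw [map_mul ρ g]; rfl
        rw [h1, show g * (g⁻¹ * c * g) = c * g by group, map_mul]
        rfl
    have heq : W.map (ρ g) = W := by
      apply eq_of_finrank_eq N hN hker _ _ (hstab _ hstab2) (hstab _ hWC)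
      exact (LinearEquiv.finrank_eq (Submodule.equivMapOfInjective _ hinjg W)).symm
    intro x hx
    have h1 : ρ g x ∈ W.map (ρ g) := ⟨x, hx, rfl⟩
    rwa [heq] at h1
  refine ⟨hirr', ?_⟩
  intro f hf
  by_cases hV : finrank K V = 0
  · refine ⟨0, fun x => ?_⟩
    have : Subsingleton V := finrank_zero_iff.1 hV
    exact Subsingleton.elim _ _
  obtain ⟨m, hm, _, hmC⟩ := Subgroup.exists_pow_mem_of_index_ne_zero hD.index_ne_zero τ
  have hpow : ρ (τ ^ m) = nexp N ^ m := by rw [map_pow, hτ]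
  have hcomm : ∀ x, f (N x) = N (f x) := by
    have h1 := mem_adjoin_nexp_pow N hN m hm
    have h2 : ∀ T : V →ₗ[K] V, T ∈ Algebra.adjoin K {nexp N ^ m} → ∀ x, f (T x) = T (f x) := by
      intro T hT
      induction hT using Algebra.adjoin_induction with
      | mem y hy =>
        rw [Set.mem_singleton_iff] at hy
        subst hy
        intro x
        rw [← hpow]
        exact hf _ hmC x
      | algebraMap r => intro x; simp [Module.algebraMap_end_apply]
      | add y z _ _ hy hz =>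
        intro x
        rw [LinearMap.add_apply, LinearMap.add_apply, map_add, hy, hz]
      | mul y z _ _ hy hz =>
        intro x
        rw [Module.End.mul_apply, Module.End.mul_apply, hy, hz]
    exact h2 N h1
  obtain ⟨j, hj⟩ : ∃ m, finrank K V = m + 1 := ⟨finrank K V - 1, by omega⟩
  obtain ⟨hNj, v, hv⟩ := exists_cyclic N hN hker j hj
  have hxker : (N ^ j) v ∈ LinearMap.ker N := by
    rw [LinearMap.mem_ker, ← Module.End.mul_apply, ← pow_succ', hNj, LinearMap.zero_apply]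
  have hker1 : finrank K (LinearMap.ker N) = 1 := by
    apply le_antisymm hker
    rw [Nat.succ_le_iff, Nat.pos_iff_ne_zero]
    intro h0
    have := Submodule.finrank_eq_zero.1 h0
    rw [this] at hxker
    exact hv ((Submodule.mem_bot _).1 hxker)
  have hfx : f ((N ^ j) v) ∈ LinearMap.ker N := by
    rw [LinearMap.mem_ker, ← hcomm, LinearMap.mem_ker.1 hxker, map_zero]
  obtain ⟨c, hc⟩ := exists_smul_eq_of_finrank_eq_one hker1
    (x := (⟨(N ^ j) v, hxker⟩ : LinearMap.ker N)) (fun h0 => hv (congrArg Subtype.val h0))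
    (⟨f ((N ^ j) v), hfx⟩ : LinearMap.ker N)
  have hc' : c • (N ^ j) v = f ((N ^ j) v) := congrArg Subtype.val hc
  refine ⟨c, ?_⟩
  rcases hirr' (LinearMap.ker (f - c • LinearMap.id)) (by
    intro g hg x hx
    rw [LinearMap.mem_ker, LinearMap.sub_apply, LinearMap.smul_apply, LinearMap.id_apply,
      sub_eq_zero] at hx ⊢
    rw [hf g hg, hx, map_smul]) with h1 | h1
  · exfalso
    apply hv
    have h2 : (N ^ j) v ∈ LinearMap.ker (f - c • LinearMap.id) := by
      rw [LinearMap.mem_ker, LinearMap.sub_apply, LinearMap.smul_apply, LinearMap.id_apply, hc',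
        sub_self]
    rw [h1] at h2
    exact (Submodule.mem_bot _).1 h2
  · intro x
    have h2 : x ∈ LinearMap.ker (f - c • LinearMap.id) := by rw [h1]; trivial
    rw [LinearMap.mem_ker, LinearMap.sub_apply, LinearMap.smul_apply, LinearMap.id_apply,
      sub_eq_zero] at h2
    exact h2

end abs

section slope

variable {k V : Type*} [Field k] [CharZero k] [AddCommGroup V] [Module k V] [FiniteDimensional k V]

/-- **Slopes in the principal case.** If `|det φ| ^ 2 = q ^ (-(w * dim V))` then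
`|det (φ | W)| ^ 2 = q ^ (-(dim W * (w - (dim V - dim W))))`. -/
theorem norm_det_principal (J : AlgebraicClosure k →+* ℂ) (T N : V →ₗ[k] V) {q : ℕ} (hq : 1 < q)
    (hTN : ∀ x, T (N x) = (q : k) • N (T x)) (hN : IsNilpotent N)
    (hker : finrank k (LinearMap.ker N) ≤ 1) (w : ℤ)
    (hV : ‖J (algebraMap k _ (LinearMap.det T))‖ ^ 2 = (q : ℝ) ^ (-(w * finrank k V)))
    (W : Submodule k V) (hWT : ∀ x ∈ W, T x ∈ W) (hWN : ∀ x ∈ W, N x ∈ W) (hW0 : W ≠ ⊥) :
    ‖J (algebraMap k _ (LinearMap.det (T.restrict hWT)))‖ ^ 2 =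
      (q : ℝ) ^ (-(finrank k W * (w - (finrank k V - finrank k W))) : ℤ) := by
  have hWpos : 0 < finrank k W := by
    rw [Nat.pos_iff_ne_zero]
    intro h0
    exact hW0 (Submodule.finrank_eq_zero.1 h0)
  have hle : finrank k W ≤ finrank k V := Submodule.finrank_le _
  obtain ⟨d, hd⟩ : ∃ d, finrank k W = d + 1 := ⟨finrank k W - 1, by omega⟩
  obtain ⟨m, hm⟩ : ∃ m, finrank k V = m + 1 := ⟨finrank k V - 1, by omega⟩
  obtain ⟨hNm, v, hv⟩ := exists_cyclic N hN hker m hm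
  have hNW : IsNilpotent (N.restrict hWN) := by
    obtain ⟨j, hj⟩ := hN
    refine ⟨j, ?_⟩
    ext x
    have h1 : ∀ i : ℕ, (((N.restrict hWN) ^ i) x : V) = (N ^ i) (x : V) := by
      intro i
      induction i with
      | zero => rfl
      | succ i ih =>
        rw [pow_succ', pow_succ', Module.End.mul_apply, Module.End.mul_apply,
          LinearMap.coe_restrict_apply, ih]
    rw [h1, hj]
    rfl
  have hkerW : finrank k (LinearMap.ker (N.restrict hWN)) ≤ 1 := by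
    refine le_trans ?_ hker
    have hmap : (LinearMap.ker (N.restrict hWN)).map W.subtype ≤ LinearMap.ker N := by
      rintro _ ⟨x, hx, rfl⟩
      have := congrArg Subtype.val (LinearMap.mem_ker.1 hx)
      exact this
    calc finrank k (LinearMap.ker (N.restrict hWN))
        = finrank k ((LinearMap.ker (N.restrict hWN)).map W.subtype) :=
          (LinearEquiv.finrank_eq (Submodule.equivMapOfInjective _
            (Submodule.subtype_injective _) _))
      _ ≤ _ := Submodule.finrank_mono hmap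
  obtain ⟨hNd, v', hv'⟩ := exists_cyclic (N.restrict hWN) hNW hkerW d hd
  obtain ⟨c, hc1, hc2⟩ := det_cyclic T N (q : k) hTN m hm v hv hNm
  obtain ⟨c', hc1', hc2'⟩ := det_cyclic (T.restrict hWT) (N.restrict hWN) (q : k)
    (fun x => Subtype.ext (hTN x)) d hd v' hv' hNd
  -- the eigenvalues on the socle agree
  have hsoc : (q : k) ^ m * c = (q : k) ^ d * c' := by
    set y : V := ((((N.restrict hWN) ^ d) v' : W) : V) with hy
    have hy0 : y ≠ 0 := fun h0 => hv' (Subtype.ext h0)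
    have hyker : y ∈ LinearMap.ker N := by
      have h1 : (N.restrict hWN) (((N.restrict hWN) ^ d) v') = 0 := by
        rw [← Module.End.mul_apply, ← pow_succ', hNd, LinearMap.zero_apply]
      exact congrArg Subtype.val h1
    have hxker : (N ^ m) v ∈ LinearMap.ker N := by
      rw [LinearMap.mem_ker, ← Module.End.mul_apply, ← pow_succ', hNm, LinearMap.zero_apply]
    have hφy : T y = ((q : k) ^ d * c') • y := congrArg Subtype.val hc2'
    obtain ⟨a, ha⟩ : ∃ a : k, a • (N ^ m) v = y := by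
      have h1 : finrank k (LinearMap.ker N) = 1 := by
        apply le_antisymm hker
        rw [Nat.succ_le_iff, Nat.pos_iff_ne_zero]
        intro h0
        have := Submodule.finrank_eq_zero.1 h0
        rw [this] at hyker
        exact hy0 ((Submodule.mem_bot _).1 hyker)
      obtain ⟨a, ha⟩ := exists_smul_eq_of_finrank_eq_one h1
        (x := (⟨(N ^ m) v, hxker⟩ : LinearMap.ker N)) (fun h0 => hv (congrArg Subtype.val h0))
        (⟨y, hyker⟩ : LinearMap.ker N)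
      exact ⟨a, congrArg Subtype.val ha⟩
    rw [← ha, map_smul, hc2, smul_smul, smul_smul] at hφy
    have h2 : (a * ((q : k) ^ m * c) - (q : k) ^ d * c' * a) • (N ^ m) v = 0 := by
      rw [sub_smul, hφy, sub_self]
    have h3 := (smul_eq_zero.1 h2).resolve_right hv
    have ha0 : a ≠ 0 := by
      rintro rfl
      rw [zero_smul] at ha
      exact hy0 ha.symm
    have h4 : a * ((q : k) ^ m * c - (q : k) ^ d * c') = 0 := by
      linear_combination h3
    exact sub_eq_zero.1 ((mul_eq_zero.1 h4).resolve_left ha0)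
  -- absolute values
  have hq0 : (0 : ℝ) < q := by exact_mod_cast (by omega : 0 < q)
  have hqne : (q : ℝ) ≠ 0 := hq0.ne'
  set A : ℝ := ‖J (algebraMap k _ c)‖ ^ 2 with hA
  set A' : ℝ := ‖J (algebraMap k _ c')‖ ^ 2 with hA'
  have hnq : ∀ i : ℕ, ‖J (algebraMap k _ ((q : k) ^ i))‖ ^ 2 = (q : ℝ) ^ ((2 * i : ℕ) : ℤ) := by
    intro i
    rw [map_pow, map_pow, map_natCast, map_natCast, norm_pow, Complex.norm_natCast, ← pow_mul,
      zpow_natCast, mul_comm]
  have hs1 := Finset.sum_range_id_mul_two (m + 1)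
  have hs2 := Finset.sum_range_id_mul_two (d + 1)
  rw [Nat.add_sub_cancel] at hs1 hs2
  have e1 : ‖J (algebraMap k _ (LinearMap.det T))‖ ^ 2 =
      A ^ (m + 1) * (q : ℝ) ^ (((m + 1) * m : ℕ) : ℤ) := by
    rw [hc1, map_mul, map_mul, norm_mul, mul_pow, hnq, mul_comm 2, hs1, map_pow, map_pow,
      norm_pow, hA, ← pow_mul, ← pow_mul, mul_comm (m + 1) 2]
  have e2 : ‖J (algebraMap k _ (LinearMap.det (T.restrict hWT)))‖ ^ 2 =
      A' ^ (d + 1) * (q : ℝ) ^ (((d + 1) * d : ℕ) : ℤ) := by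
    rw [hc1', map_mul, map_mul, norm_mul, mul_pow, hnq, mul_comm 2, hs2, map_pow, map_pow,
      norm_pow, hA', ← pow_mul, ← pow_mul, mul_comm (d + 1) 2]
  have e3 : (q : ℝ) ^ ((2 * m : ℕ) : ℤ) * A = (q : ℝ) ^ ((2 * d : ℕ) : ℤ) * A' := by
    have h1 : ‖J (algebraMap k _ ((q : k) ^ m * c))‖ ^ 2 =
        ‖J (algebraMap k _ ((q : k) ^ d * c'))‖ ^ 2 := by rw [hsoc]
    rw [map_mul, map_mul, map_mul, map_mul, norm_mul, norm_mul, mul_pow, mul_pow, hnq, hnq] at h1
    exact h1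
  have hA0 : 0 ≤ A := by positivity
  have hAval : A = (q : ℝ) ^ (-(w + m) : ℤ) := by
    have h1 : A ^ (m + 1) = ((q : ℝ) ^ (-(w + m) : ℤ)) ^ (m + 1) := by
      have h2 : A ^ (m + 1) * (q : ℝ) ^ (((m + 1) * m : ℕ) : ℤ) =
          (q : ℝ) ^ (-(w * (m + 1 : ℕ)) : ℤ) := by
        rw [← e1, hV, hm]
      rw [← zpow_natCast ((q : ℝ) ^ (-(w + m) : ℤ)), ← zpow_mul]
      have h3 : (q : ℝ) ^ (-(w * (m + 1 : ℕ)) : ℤ) =
          (q : ℝ) ^ ((-(w + m)) * ((m + 1 : ℕ) : ℤ)) * (q : ℝ) ^ (((m + 1) * m : ℕ) : ℤ) := by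
        rw [← zpow_add₀ hqne]
        congr 1
        push_cast
        ring
      rw [h3] at h2
      exact mul_right_cancel₀ (zpow_ne_zero _ hqne) h2
    exact (pow_left_inj₀ hA0 (zpow_nonneg hq0.le _) (Nat.succ_ne_zero m)).1 h1
  have hA'val : A' = (q : ℝ) ^ (-(w + m) + 2 * m - 2 * d : ℤ) := by
    rw [hAval, ← zpow_add₀ hqne] at e3
    have h3 : (q : ℝ) ^ (((2 * m : ℕ) : ℤ) + (-(w + m) : ℤ)) =
        (q : ℝ) ^ ((2 * d : ℕ) : ℤ) * (q : ℝ) ^ (-(w + m) + 2 * m - 2 * d : ℤ) := by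
      rw [← zpow_add₀ hqne]
      congr 1
      push_cast
      ring
    rw [h3] at e3
    exact (mul_left_cancel₀ (zpow_ne_zero _ hqne) e3).symm
  rw [e2, hA'val, ← zpow_natCast ((q : ℝ) ^ (-(w + m) + 2 * m - 2 * d : ℤ)), ← zpow_mul,
    ← zpow_add₀ hqne, hm, hd]
  congr 1
  push_cast
  ring

end slope

section main

variable {p : ℕ} [hp : Fact p.Prime] {Ω : Type*} [Field Ω] [CharZero Ω] [IsAlgClosed Ω]
  [IsGalois ℚ Ω]
variable {Γ : Subgroup Gal(Ω/ℚ)} {V : Type*} [AddCommGroup V] [Module ℚ_[p] V]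
  [FiniteDimensional ℚ_[p] V]

/-- **Principal monodromy at one place implies irreducibility.** -/
theorem irreducible_of_principalF [Γ.FiniteIndex] (hΓ : IsOpen (Γ : Set Gal(Ω/ℚ)))
    (ρ : Representation ℚ_[p] Γ V) (hρ : IsContRep ρ)
    (hHT : ∀ ι : Ω →+* PadicAlgCl p, ∃ (n : ℕ) (h : Fin n → ℤ)
      (e : Basis (Fin n) ℂ_[p] (ℂ_[p] ⊗[ℚ_[p]] V)), IsHTBasisAt ι ρ h e)
    (w : ℤ) (hpure : IsPureAbove ρ w) {l m : ℕ} (hl : l.Prime) (hlp : l ≠ p) (hm : 0 < m)
    {φ : Gal(Ω/ℚ)} (hφ : IsFrobAt l φ) (hφΓ : ∀ x : Gal(Ω/ℚ), x⁻¹ * φ ^ m * x ∈ Γ)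
    (hφ1 : φ ^ m ∈ Γ)
    (hWM : ∀ x : Gal(Ω/ℚ), x ∉ Γ → HasWMAt ρ w (l ^ m) ⟨x⁻¹ * φ ^ m * x, hφΓ x⟩)
    (τ : Γ) (N : V →ₗ[ℚ_[p]] V) (hN : IsNilpotent N) (hτ : ρ τ = nexp N)
    (hφN : ∀ x, ρ ⟨φ ^ m, hφ1⟩ (N x) = ((l ^ m : ℕ) : ℚ_[p]) • N (ρ ⟨φ ^ m, hφ1⟩ x))
    (hker : finrank ℚ_[p] (LinearMap.ker N) ≤ 1)
    (W : Submodule ℚ_[p] V) (hW : ∀ g, ∀ x ∈ W, ρ g x ∈ W) : W = ⊥ ∨ W = ⊤ := by
  by_cases hW0 : W = ⊥
  · exact Or.inl hW0
  right
  obtain ⟨J⟩ := exists_embedding p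
  have hq1 : 1 < l ^ m := Nat.one_lt_pow hm.ne' hl.one_lt
  have hstab : ∀ W : Submodule ℚ_[p] V, (∀ g, ∀ x ∈ W, ρ g x ∈ W) → ∀ x ∈ W, N x ∈ W :=
    fun W hW => stable_of_nexp N hN W (fun x hx => by rw [← hτ]; exact hW τ x hx)
  have hV := (weight_at_one hΓ ρ hρ hHT w hpure hl hlp hm hφ hφΓ hφ1 hWM J ⊤
    (fun _ _ _ => trivial)).2 rfl
  have h2 : detG ρ ⊤ (fun _ _ _ => trivial) ⟨φ ^ m, hφ1⟩ = LinearMap.det (ρ ⟨φ ^ m, hφ1⟩) := by
    change LinearMap.det ((ρ ⟨φ ^ m, hφ1⟩).restrict _) = _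
    rw [← LinearMap.det_conj ((ρ ⟨φ ^ m, hφ1⟩).restrict (p := ⊤) (q := ⊤) (fun _ _ => trivial))
      (Submodule.topEquiv : (⊤ : Submodule ℚ_[p] V) ≃ₗ[ℚ_[p]] V)]
    rfl
  rw [h2, finrank_top] at hV
  have h3 := norm_det_principal J (ρ ⟨φ ^ m, hφ1⟩) N hq1 hφN hN hker w hV W (hW _) (hstab W hW) hW0
  have h4 := (weight_at_one hΓ ρ hρ hHT w hpure hl hlp hm hφ hφΓ hφ1 hWM J W hW).1
  have h5 : detG ρ W hW ⟨φ ^ m, hφ1⟩ =
    LinearMap.det ((ρ ⟨φ ^ m, hφ1⟩).restrict (hW ⟨φ ^ m, hφ1⟩)) := rfl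
  rw [h5, h3] at h4
  have h6 := (zpow_le_zpow_iff_right₀ (by exact_mod_cast hq1)).1 h4
  have hWpos : 0 < finrank ℚ_[p] W := by
    rw [Nat.pos_iff_ne_zero]
    intro h0
    exact hW0 (Submodule.finrank_eq_zero.1 h0)
  have hle : finrank ℚ_[p] W ≤ finrank ℚ_[p] V := Submodule.finrank_le _
  apply Submodule.eq_top_of_finrank_eq
  have hWpos' : (0 : ℤ) < finrank ℚ_[p] W := by exact_mod_cast hWpos
  have hle' : (finrank ℚ_[p] W : ℤ) ≤ finrank ℚ_[p] V := by exact_mod_cast hle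
  have h7 : (finrank ℚ_[p] W : ℤ) * ((finrank ℚ_[p] V : ℤ) - finrank ℚ_[p] W) ≤ 0 := by
    linarith
  have h8 : (finrank ℚ_[p] V : ℤ) - finrank ℚ_[p] W ≤ 0 := by
    by_contra hcon
    push Not at hcon
    have := mul_pos hWpos' hcon
    linarith
  omega

end main

end Pool.Agent.NF
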