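import Mathlib
import Pool.Agent.Lib.H99.NF.Mono3

/-!
# Strong irreducibility from one Jordan block of the monodromy at one place

Not a hand-in: recorded here for use in the library. There is no polarisation.
-/

namespace Pool.Agent.NF

open Pool.Agent.GSem TensorProduct Module Polynomial

/-- If the monodromy operator `N` at one place has only one Jordan block, then `V` is irreducible,
and stays irreducible on all subgroups of finite index, where its only endomorphisms are the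
scalars. -/
theorem stronglyIrreducible_of_oneBlock (p : ℕ) [Fact p.Prime] (Ω : Type*) [Field Ω] [CharZero Ω]
    [IsAlgClosure ℚ Ω] (F : IntermediateField ℚ Ω) [NumberField F]
    (V : Type*) [AddCommGroup V] [Module ℚ_[p] V] [FiniteDimensional ℚ_[p] V]
    (ρ : Representation ℚ_[p] F.fixingSubgroup V) (hρ : IsContRep ρ)
    (hHT : IsHodgeTateAll ρ)
    (w : ℤ) (hpure : IsPureAbove ρ w)
    (l m : ℕ) (hl : l.Prime) (hlp : l ≠ p) (hm : 0 < m) (φ : Gal(Ω/ℚ)) (hφ : IsFrobAt l φ)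
    (hφF : ∀ x : Gal(Ω/ℚ), x⁻¹ * φ ^ m * x ∈ F.fixingSubgroup)
    (hWM : ∀ x : Gal(Ω/ℚ), x ∉ F.fixingSubgroup → HasWMAt ρ w (l ^ m) ⟨x⁻¹ * φ ^ m * x, hφF x⟩)
    (hφ1 : φ ^ m ∈ F.fixingSubgroup)
    (τ : F.fixingSubgroup) (N : V →ₗ[ℚ_[p]] V) (hN : IsNilpotent N) (hτ : ρ τ = nexp N)
    (hφN : ∀ x, ρ ⟨φ ^ m, hφ1⟩ (N x) = ((l ^ m : ℕ) : ℚ_[p]) • N (ρ ⟨φ ^ m, hφ1⟩ x))
    (hker : finrank ℚ_[p] (LinearMap.ker N) ≤ 1) : IsStronglyIrreducible ρ := by
  have _ : IsAlgClosed Ω := IsAlgClosure.isAlgClosed ℚ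
  have _ : Algebra.IsAlgebraic ℚ Ω := IsAlgClosure.isAlgebraic
  have _ : IsGalois ℚ Ω := IsAlgClosure.isGalois ℚ Ω
  have hopen : IsOpen (F.fixingSubgroup : Set Gal(Ω/ℚ)) :=
    IntermediateField.fixingSubgroup_isOpen F
  have hfinq : Finite (Gal(Ω/ℚ) ⧸ F.fixingSubgroup) := Subgroup.quotient_finite_of_isOpen _ hopen
  have hfi : F.fixingSubgroup.FiniteIndex := Subgroup.finiteIndex_of_finite_quotient
  intro G _
  exact abs_of_irreducible ρ N hN hker τ hτ (fun W hW => irreducible_of_principalF hopen ρ hρ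
    hHT w hpure hl hlp hm hφ hφF hφ1 hWM τ N hN hτ hφN hker W hW) G

end Pool.Agent.NF
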