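import Mathlib
import Pool.Agent.Lib.H99.NF.Places

/-!
# Determinants of stable subspaces of pure Hodge–Tate representations over a number field
-/

namespace Pool.Agent.NF

open NumberField TensorProduct Module Polynomial Pool.Agent.GSem Pool.Agent.PD

section main

variable {p : ℕ} [hp : Fact p.Prime] {Ω : Type*} [Field Ω] [CharZero Ω] [IsAlgClosed Ω]
  [IsGalois ℚ Ω]
variable {Γ : Subgroup Gal(Ω/ℚ)} {V : Type*} [AddCommGroup V] [Module ℚ_[p] V]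
  [FiniteDimensional ℚ_[p] V]

/-- The weights of the determinant of a stable subspace at the embedding `ι`. -/
theorem exists_weight_det (ρ : Representation ℚ_[p] Γ V) (ι : Ω →+* PadicAlgCl p)
    {n : ℕ} (h : Fin n → ℤ) (e : Basis (Fin n) ℂ_[p] (ℂ_[p] ⊗[ℚ_[p]] V))
    (he : IsHTBasisAt ι ρ h e)
    (U : Submodule ℚ_[p] V) (hU : ∀ g, ∀ u ∈ U, ρ g u ∈ U) :
    ∃ (H : ℤ) (c : ℂ_[p]), c ≠ 0 ∧ ∀ σ (g : Γ), Compat ι σ (g : Gal(Ω/ℚ)) →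
      galC σ c * algebraMap ℚ_[p] ℂ_[p] (detG ρ U hU g) =
        algebraMap ℚ_[p] ℂ_[p] (toQ (cyc p Ω (g : Gal(Ω/ℚ))) ^ (-H)) * c := by
  have hUR : ∀ σ T u, relAt ι ρ σ T u → ∀ x ∈ U, T x ∈ U := by
    rintro σ T u ⟨g, -, rfl, -⟩
    exact hU g
  obtain ⟨H, c, hc, h2⟩ := exists_det_abs h e (basisRel_of_HT he) U hUR
  exact ⟨H, c, hc, fun σ g hg => h2 σ (ρ g) _ ⟨g, hg, rfl, rfl⟩⟩

/-- **Determinants of stable subspaces** of a pure Hodge–Tate representation of the subgroup `Γ`: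
up to finite order, the product of the conjugates of the determinant is the power
`- w * dim U * [Gal(Ω/ℚ) : Γ] / 2` of the cyclotomic character. -/
theorem exists_pure_relation [Γ.FiniteIndex] [Fintype (Gal(Ω/ℚ) ⧸ Γ)]
    (hΓ : IsOpen (Γ : Set Gal(Ω/ℚ)))
    (ρ : Representation ℚ_[p] Γ V) (hρ : IsContRep ρ)
    (hHT : ∀ ι : Ω →+* PadicAlgCl p, ∃ (n : ℕ) (h : Fin n → ℤ)
      (e : Basis (Fin n) ℂ_[p] (ℂ_[p] ⊗[ℚ_[p]] V)), IsHTBasisAt ι ρ h e)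
    (w : ℤ) (hpure : IsPureAbove ρ w)
    (U : Submodule ℚ_[p] V) (hU : ∀ g, ∀ u ∈ U, ρ g u ∈ U) :
    ∃ M : ℕ, 0 < M ∧ ∀ (g : Gal(Ω/ℚ)) (hg : ∀ x : Gal(Ω/ℚ), x⁻¹ * g * x ∈ Γ),
      (∏ x : Gal(Ω/ℚ) ⧸ Γ, detG ρ U hU ⟨x.out⁻¹ * g * x.out, hg _⟩) ^ (2 * M) =
        (toQ (cyc p Ω g)) ^
          (-(M * (w * finrank ℚ_[p] U * Fintype.card (Gal(Ω/ℚ) ⧸ Γ))) : ℤ) := by
  classical
  obtain ⟨ι₀⟩ : Nonempty (Ω →+* PadicAlgCl p) := by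
    obtain ⟨f⟩ : Nonempty (Ω →ₐ[ℚ] PadicAlgCl p) := ⟨IsAlgClosed.lift⟩
    exact ⟨f⟩
  have hH : ∀ x : Gal(Ω/ℚ) ⧸ Γ, ∃ H : ℤ, ∃ c : ℂ_[p], c ≠ 0 ∧ ∀ σ (g : Γ),
      Compat (twistEmb ι₀ x.out) σ (g : Gal(Ω/ℚ)) →
      galC σ c * algebraMap ℚ_[p] ℂ_[p] (detG ρ U hU g) =
        algebraMap ℚ_[p] ℂ_[p] (toQ (cyc p Ω (g : Gal(Ω/ℚ))) ^ (-H)) * c := by
    intro x
    obtain ⟨n, h, e, he⟩ := hHT (twistEmb ι₀ x.out)
    exact exists_weight_det ρ _ h e he U hU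
  choose H hH using hH
  have hsum := sum_weights hΓ ι₀ ρ hρ w hpure U hU H hH
  obtain ⟨M, hM, hrel⟩ := exists_det_relation hΓ ι₀ ρ hρ U hU H hH
  refine ⟨M, hM, fun g hg => ?_⟩
  rw [mul_comm 2 M, pow_mul, hrel g hg, ← hsum, ← zpow_natCast, ← zpow_mul]
  congr 1
  push_cast
  ring

end main

end Pool.Agent.NF
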